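import Pool.Agent.H454R3.Tri
set_option autoImplicit false

/-!
# A cube on which the path of greatest improvement is long and all waiting directions have
prescribed small improvements
-/

namespace Pool.Agent.TH745.MR

open Finset Pool.Agent.H454R3

variable {n : ℕ}

/-- parameters: `τ` is the start vertex, `B` the improvement of each step of the path, `C` the
minimal difference along all edges but those with improvement `ω` -/
structure Par (n : ℕ) where
  τ : Fin n → Bool
  B : ℤ
  C : ℤ
  ω : Fin n → ℤ
  hC : 0 < C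
  hω0 : ∀ i, 0 < ω i
  hω : ∀ i, ω i < C
  hB : (n : ℤ) * C + 4 * C ≤ B

abbrev X (n : ℕ) := Fin n → Bool

lemma flip_flip (x : X n) (i : Fin n) : flip (flip x i) i = x := by
  funext j
  by_cases h : j = i
  · subst h; rw [flip_self, flip_self]; simp
  · rw [flip_ne _ h, flip_ne _ h]

lemma flip_comm (x : X n) (i j : Fin n) : flip (flip x i) j = flip (flip x j) i := by
  funext k
  by_cases hi : k = i <;> by_cases hj : k = j
  · subst hi; subst hj; rfl
  · subst hi; rw [flip_ne _ hj, flip_self, flip_self, flip_ne _ hj]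
  · subst hj; rw [flip_self, flip_ne _ hi, flip_ne _ hi, flip_self]
  · rw [flip_ne _ hj, flip_ne _ hi, flip_ne _ hi, flip_ne _ hj]

/-- an objective function which only depends on the coordinates in `T`, whose edges are strict,
and either long or do not change `s`, and which is combed -/
structure Good (p : Par n) {α : Type} (T : Finset (Fin n)) (F : X n → ℤ) (s : X n → α) :
    Prop where
  dep : ∀ x x' : X n, (∀ i ∈ T, x i = x' i) → F x = F x'
  ne : ∀ x : X n, ∀ i ∈ T, F x ≠ F (flip x i)
  edge : ∀ x : X n, ∀ i ∈ T, p.C ≤ |F x - F (flip x i)| ∨ s x = s (flip x i)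
  comb : ∀ U ⊆ T, U.Nonempty → ∀ x : X n, ∃ i ∈ U, ∃ b : Bool, ∀ y : X n,
    (∀ j, j ∉ U → y j = x j) → (F y < F (flip y i) ↔ y i = b)

variable {α : Type}

lemma good_zero (p : Par n) (c : ℤ) (s : X n → α) : Good p ∅ (fun _ => c) s :=
  ⟨fun _ _ _ => rfl, by simp, by simp, fun U hU hne => by
    rw [subset_empty] at hU; rw [hU] at hne; exact absurd hne not_nonempty_empty⟩

lemma Good.add {p : Par n} {T : Finset (Fin n)} {F : X n → ℤ} {s : X n → α} (h : Good p T F s)
    (c : ℤ) : Good p T (fun x => c + F x) s := by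
  refine ⟨fun x x' hx => by rw [h.dep x x' hx], fun x i hi => ?_, fun x i hi => ?_,
    fun U hU hne x => ?_⟩
  · have := h.ne x i hi
    intro h2; apply this; exact add_left_cancel h2
  · rcases h.edge x i hi with h1 | h1
    · left; rw [add_sub_add_left_eq_sub]; exact h1
    · right; exact h1
  · obtain ⟨i, hi, b, hb⟩ := h.comb U hU hne x
    refine ⟨i, hi, b, fun y hy => ?_⟩
    rw [← hb y hy]
    exact add_lt_add_iff_left c

/-- changes which keep the orientation -/
lemma Good.mod {p : Par n} {T : Finset (Fin n)} {F : X n → ℤ} {s : X n → α} (h : Good p T F s)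
    (F' : X n → ℤ) (s' : X n → α) (dep : ∀ x x' : X n, (∀ i ∈ T, x i = x' i) → F' x = F' x')
    (hiff : ∀ x : X n, ∀ i ∈ T, (F' x < F' (flip x i) ↔ F x < F (flip x i)))
    (edge : ∀ x : X n, ∀ i ∈ T, p.C ≤ |F' x - F' (flip x i)| ∨ s' x = s' (flip x i)) :
    Good p T F' s' := by
  refine ⟨dep, fun x i hi heq => ?_, edge, fun U hU hne x => ?_⟩
  · have h1 := hiff x i hi
    have h2 := hiff (flip x i) i hi
    rw [flip_flip] at h2
    rw [heq] at h1 h2
    have h3 := h.ne x i hi
    have h4 : ¬ F x < F (flip x i) := fun h => lt_irrefl _ (h1.2 h)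
    have h5 : ¬ F (flip x i) < F x := fun h => lt_irrefl _ (h2.2 h)
    exact h3 (le_antisymm (not_lt.1 h5) (not_lt.1 h4))
  · obtain ⟨i, hi, b, hb⟩ := h.comb U hU hne x
    exact ⟨i, hi, b, fun y hy => (hiff y i (hU hi)).trans (hb y hy)⟩

/-- the value of the coordinate `a` selects one of two functions -/
lemma good_sw {p : Par n} {T : Finset (Fin n)} {F₀ F₁ : X n → ℤ} {s₀ s₁ : X n → α}
    {a : Fin n} (ha : a ∉ T) (h₀ : Good p T F₀ s₀) (h₁ : Good p T F₁ s₁)
    (hlt : (∀ x, F₀ x < F₁ x) ∨ (∀ x, F₁ x < F₀ x))
    (he : ∀ x : X n, x a = p.τ a → p.C ≤ |F₁ x - F₀ x| ∨ s₀ x = s₁ (flip x a)) :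
    Good p (insert a T) (fun x => if x a = p.τ a then F₀ x else F₁ x)
      (fun x => if x a = p.τ a then s₀ x else s₁ x) := by
  have hne : ∀ x : X n, F₀ x ≠ F₁ x := by
    intro x
    rcases hlt with h | h
    · exact (h x).ne
    · exact (h x).ne'
  have hT : ∀ (x : X n) (i : Fin n), i ∈ T → flip x i a = x a := fun x i hi =>
    flip_ne x fun h => ha (h ▸ hi)
  have hTa : ∀ x : X n, ∀ i ∈ T, x i = flip x a i := fun x i hi =>
    (flip_ne x fun (h : i = a) => ha (h ▸ hi)).symm
  have d0 : ∀ x : X n, F₀ (flip x a) = F₀ x := fun x => (h₀.dep _ _ (hTa x)).symm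
  have d1 : ∀ x : X n, F₁ (flip x a) = F₁ x := fun x => (h₁.dep _ _ (hTa x)).symm
  have hbool : ∀ x : X n, x a = p.τ a → ¬ flip x a a = p.τ a := by
    intro x hx; rw [flip_self, hx]; cases p.τ a <;> simp
  have hbool' : ∀ x : X n, ¬ x a = p.τ a → flip x a a = p.τ a := by
    intro x hx; rw [flip_self]; revert hx; cases x a <;> cases p.τ a <;> simp
  refine ⟨?_, ?_, ?_, ?_⟩
  · intro x x' hx
    have h1 := hx a (mem_insert_self a T)
    have h2 : ∀ i ∈ T, x i = x' i := fun i hi => hx i (mem_insert_of_mem hi)
    show (if x a = p.τ a then F₀ x else F₁ x) = (if x' a = p.τ a then F₀ x' else F₁ x')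
    rw [h1, h₀.dep x x' h2, h₁.dep x x' h2]
  · intro x i hi
    show (if x a = p.τ a then F₀ x else F₁ x) ≠
      (if flip x i a = p.τ a then F₀ (flip x i) else F₁ (flip x i))
    rcases mem_insert.1 hi with rfl | hi
    · by_cases hx : x i = p.τ i
      · rw [if_pos hx, if_neg (hbool x hx), d1]; exact hne x
      · rw [if_neg hx, if_pos (hbool' x hx), d0]; exact (hne x).symm
    · rw [hT x i hi]
      split_ifs
      · exact h₀.ne x i hi
      · exact h₁.ne x i hi
  · intro x i hi
    show p.C ≤ |(if x a = p.τ a then F₀ x else F₁ x) -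
        (if flip x i a = p.τ a then F₀ (flip x i) else F₁ (flip x i))| ∨
      (if x a = p.τ a then s₀ x else s₁ x) =
        (if flip x i a = p.τ a then s₀ (flip x i) else s₁ (flip x i))
    rcases mem_insert.1 hi with rfl | hi
    · by_cases hx : x i = p.τ i
      · rw [if_pos hx, if_neg (hbool x hx), d1, if_pos hx, if_neg (hbool x hx), abs_sub_comm]
        exact he x hx
      · rw [if_neg hx, if_pos (hbool' x hx), d0, if_neg hx, if_pos (hbool' x hx)]
        have h1 := he (flip x i) (hbool' x hx)
        rw [d0, d1, flip_flip] at h1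
        rcases h1 with h1 | h1
        · exact Or.inl h1
        · exact Or.inr h1.symm
    · rw [hT x i hi]
      by_cases hx : x a = p.τ a
      · simp only [hx, if_true]; exact h₀.edge x i hi
      · simp only [hx, if_false]; exact h₁.edge x i hi
  · intro U hU hUne x
    by_cases haU : a ∈ U
    · rcases hlt with h | h
      · refine ⟨a, haU, p.τ a, fun y _ => ?_⟩
        show (if y a = p.τ a then F₀ y else F₁ y) <
          (if flip y a a = p.τ a then F₀ (flip y a) else F₁ (flip y a)) ↔ _
        by_cases hy : y a = p.τ a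
        · rw [if_pos hy, if_neg (hbool y hy), d1]
          exact ⟨fun _ => hy, fun _ => h y⟩
        · rw [if_neg hy, if_pos (hbool' y hy), d0]
          exact ⟨fun h2 => absurd h2 (not_lt.2 (h y).le), fun h2 => absurd h2 hy⟩
      · refine ⟨a, haU, !p.τ a, fun y _ => ?_⟩
        show (if y a = p.τ a then F₀ y else F₁ y) <
          (if flip y a a = p.τ a then F₀ (flip y a) else F₁ (flip y a)) ↔ _
        by_cases hy : y a = p.τ a
        · rw [if_pos hy, if_neg (hbool y hy), d1, hy]
          refine ⟨fun h2 => absurd h2 (not_lt.2 (h y).le), fun h2 => ?_⟩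
          revert h2; cases p.τ a <;> simp
        · rw [if_neg hy, if_pos (hbool' y hy), d0]
          refine ⟨fun _ => ?_, fun _ => h y⟩
          revert hy; cases y a <;> cases p.τ a <;> simp
    · have hUT : U ⊆ T := by
        intro i hi
        rcases mem_insert.1 (hU hi) with h | h
        · rw [h] at hi; exact absurd hi haU
        · exact h
      by_cases hx : x a = p.τ a
      · obtain ⟨i, hi, b, hb⟩ := h₀.comb U hUT hUne x
        refine ⟨i, hi, b, fun y hy => ?_⟩
        have hya : y a = p.τ a := by rw [hy a haU, hx]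
        show (if y a = p.τ a then F₀ y else F₁ y) <
          (if flip y i a = p.τ a then F₀ (flip y i) else F₁ (flip y i)) ↔ _
        rw [hT y i (hUT hi), if_pos hya, if_pos hya]
        exact hb y hy
      · obtain ⟨i, hi, b, hb⟩ := h₁.comb U hUT hUne x
        refine ⟨i, hi, b, fun y hy => ?_⟩
        have hya : ¬ y a = p.τ a := by rw [hy a haU]; exact hx
        show (if y a = p.τ a then F₀ y else F₁ y) <
          (if flip y i a = p.τ a then F₀ (flip y i) else F₁ (flip y i)) ↔ _
        rw [hT y i (hUT hi), if_neg hya, if_neg hya]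
        exact hb y hy

/-- a penalty of `C` for a changed coordinate -/
def pen (p : Par n) (i : Fin n) (x : X n) : ℤ := if x i = p.τ i then 0 else p.C

lemma pen_pos {p : Par n} {i : Fin n} {x : X n} (h : x i = p.τ i) : pen p i x = 0 := if_pos h

lemma pen_neg {p : Par n} {i : Fin n} {x : X n} (h : ¬ x i = p.τ i) : pen p i x = p.C := if_neg h

lemma pen_ge (p : Par n) (i : Fin n) (x : X n) : 0 ≤ pen p i x := by
  unfold pen; have := p.hC; split_ifs <;> omega

lemma pen_le (p : Par n) (i : Fin n) (x : X n) : pen p i x ≤ p.C := by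
  unfold pen; have := p.hC; split_ifs <;> omega

lemma Good.pen {p : Par n} {T : Finset (Fin n)} {F : X n → ℤ} {s : X n → α} (h : Good p T F s)
    {b : Fin n} (hb : b ∉ T) : Good p (insert b T) (fun x => F x - pen p b x) s := by
  have h1 : Good p T (fun x => F x - p.C) s := by
    have := h.add (-p.C)
    simpa only [neg_add_eq_sub] using this
  have h2 := good_sw hb h h1 (Or.inr fun x => by have := p.hC; omega) (fun x _ => Or.inl (by
    rw [abs_sub_comm]
    have : F x - (F x - p.C) = p.C := by ring
    rw [this]; exact le_abs_self _))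
  have e1 : (fun x => F x - MR.pen p b x) = fun x => if x b = p.τ b then F x else F x - p.C := by
    funext x
    unfold MR.pen
    split_ifs
    · ring
    · rfl
  have e2 : s = fun x => if x b = p.τ b then s x else s x := by
    funext x; simp
  rw [e1]
  rw [e2]
  exact h2

end Pool.Agent.TH745.MR
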