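import Pool.Agent.H454R3.Defs
set_option autoImplicit false

/-!
# Rules which see the improving facets and the objective values of the improving neighbours
-/

namespace Pool.Agent.TH745.MR

open Finset Pool.Agent.H454R3

/-- what a rule sees at the vertex `x` of the `n`-cube besides the objective value `f x`: for
every facet `(i, b) = {y : y i = b}` which contains `x` and can be left improvingly the objective
value of the neighbour in direction `i`, and nothing for all other facets -/
def offers {n : ℕ} (f : (Fin n → Bool) → ℕ) (x : Fin n → Bool) : Fin n × Bool → Option ℕ :=
  fun e => if x e.1 = e.2 ∧ f x < f (flip x e.1) then some (f (flip x e.1)) else none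

end Pool.Agent.TH745.MR
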