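import Pool.Agent.TH745.MR.Main
set_option autoImplicit false

/-!
# The length of the path
-/

namespace Pool.Agent.TH745.MR

open Finset Pool.Agent.H454R3

variable {n : ℕ}

/-- quadruples of successive members of a list -/
def quads : List (Fin n) → List (Quad n)
  | a :: b :: c :: d :: L => (a, b, c, d) :: quads L
  | _ => []

lemma quads_sub : ∀ s : List (Fin n), (dl (quads s)).Sublist s
  | a :: b :: c :: d :: L => by
    rw [quads, dl]
    exact ((((quads_sub L).cons_cons d).cons_cons c).cons_cons b).cons_cons a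
  | [] => by simp [quads, dl]
  | [_] => by simp [quads, dl]
  | [_, _] => by simp [quads, dl]
  | [_, _, _] => by simp [quads, dl]

lemma quads_len : ∀ s : List (Fin n), s.length < 4 * (quads s).length + 4
  | a :: b :: c :: d :: L => by
    have := quads_len L
    rw [quads]
    simp only [List.length_cons]
    omega
  | [] => by simp
  | [_] => by simp
  | [_, _] => by simp
  | [_, _, _] => by simp

lemma NN_ge : ∀ Q : List (Quad n), 2 ^ (Q.length + 2) ≤ NN Q + 4
  | [] => by simp [NN]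
  | q :: Q => by
    have := NN_ge Q
    rw [NN, List.length_cons, show Q.length + 1 + 2 = (Q.length + 2) + 1 by ring, pow_succ]
    omega

lemma NN_ge' (s : List (Fin n)) : (2 : ℝ) ^ ((s.length : ℝ) / 4) ≤ (NN (quads s) : ℝ) + 2 := by
  have h1 := NN_ge (quads s)
  have h2 := quads_len s
  set m := (quads s).length
  have h3 : (s.length : ℝ) / 4 ≤ ((m + 1 : ℕ) : ℝ) := by
    rw [div_le_iff₀ (by norm_num)]
    have : s.length ≤ (m + 1) * 4 := by omega
    exact_mod_cast this
  have h4 : (2 : ℝ) ^ ((s.length : ℝ) / 4) ≤ (2 : ℝ) ^ ((m + 1 : ℕ) : ℝ) :=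
    Real.rpow_le_rpow_of_exponent_le (by norm_num) h3
  rw [Real.rpow_natCast] at h4
  refine h4.trans ?_
  have h5 : 2 ^ (m + 1) ≤ NN (quads s) + 2 := by
    have h6 : 1 ≤ 2 ^ m := Nat.one_le_two_pow
    have h7 : 2 ^ (m + 2) = 4 * 2 ^ m := by rw [pow_add]; ring
    have h8 : 2 ^ (m + 1) = 2 * 2 ^ m := by rw [pow_add]; ring
    omega
  exact_mod_cast h5

theorem exists_slow (r : ℕ → (Fin n × Bool → Option ℕ) → Fin n × Bool)
    (hr : ∀ (v : ℕ) (o : Fin n × Bool → Option ℕ), (∃ e, o e ≠ none) → o (r v o) ≠ none)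
    (hbest : ∀ (v : ℕ) (o : Fin n × Bool → Option ℕ) (u : ℕ), (∃ e, o e ≠ none) →
      (∀ e w, o e = some w → w < u) → r v (Function.update o (r v o) (some u)) = r v o)
    (h k : ℕ) (hh : 8 ≤ h) (hn : 320 * h ^ 4 ≤ n) (hk : 1 ≤ k) (hhk : 8 * h ≤ 2 ^ k) :
    ∃ f : X n → ℕ, Function.Injective f ∧ Combed f ∧
      ∃ (L : ℕ) (v : ℕ → X n),
        (∀ k < L, (improving f (v k)).Nonempty ∧
          v (k + 1) = flip (v k) (r (f (v k)) (offers f (v k))).1) ∧
        improving f (v L) = ∅ ∧ (2 : ℝ) ^ ((h : ℝ) / (200 * k)) ≤ L + 2 := by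
  classical
  obtain ⟨φ, hφ, ρ, hρ⟩ := hom_rule r
  have pat_ne : ∀ (a : ℕ → ℕ) (E : Finset (Fin n × Bool)) (y : Option (Fin n × Bool))
      (e : Fin n × Bool), pat a E y e ≠ none ↔ e ∈ E := by
    intro a E y e
    unfold pat
    by_cases he : e ∈ E <;> simp [he]
  have hmem : ∀ E : Finset (Fin n × Bool), E.Nonempty → ρ E none ∈ E := by
    intro E hE
    obtain ⟨e, he⟩ := hE
    have h1 := hr (φ 0) (pat (fun j => φ j) E none) ⟨e, (pat_ne _ _ _ _).2 he⟩
    rw [hρ (fun j => j) strictMono_id E none] at h1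
    exact (pat_ne _ _ _ _).1 h1
  have hmo : ∀ E : Finset (Fin n × Bool), E.Nonempty → ρ E (some (ρ E none)) = ρ E none := by
    intro E hE
    have h1 := hρ (fun j => j) strictMono_id E none
    have h2 := hρ (fun j => j) strictMono_id E (some (ρ E none))
    have h3 := hmem E hE
    set e := ρ E none with he
    have h5 := hbest (φ 0) (pat (fun j => φ j) E none) (φ (n + 1))
      ⟨e, (pat_ne _ _ _ _).2 h3⟩ (by
        intro z w hz
        have hzE : z ∈ E := (pat_ne _ _ _ _).1 (by rw [hz]; simp)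
        unfold pat at hz
        rw [if_pos hzE, if_neg (by simp)] at hz
        rw [← Option.some_injective _ hz]
        exact hφ (by have := z.1.2; omega))
    rw [h1] at h5
    refine h2.symm.trans (Eq.trans ?_ h5)
    congr 1
    funext z
    by_cases hz : z = e
    · rw [hz, Function.update_self]
      unfold pat
      rw [if_pos h3, if_pos rfl]
    · rw [Function.update_of_ne hz]
      unfold pat
      have h6 : ¬ some z = some e := fun h => hz (Option.some_injective _ h)
      rw [if_neg h6, if_neg (show ¬ some z = none by simp)]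
  obtain ⟨τ, pos, s, s1, s2, s3, s4⟩ := exists_osteer
    (fun S x => (ρ (S.image fun i => (i, x i)) none).1)
    (by
      intro S x hS
      have h1 := hmem (S.image fun i => (i, x i)) (hS.image _)
      obtain ⟨i, hi, he⟩ := mem_image.1 h1
      rw [← he]
      exact hi)
    (by
      intro S x x' hx
      congr 2
      apply image_congr
      intro i hi
      simp only
      rw [hx i hi])
    h k hh hn hk hhk
  have hsub := quads_sub s
  have hsub2 : ∀ i, i ∈ dl (quads s) → i ∈ s := fun i hi => hsub.subset hi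
  obtain ⟨f, f1, f2, v, _, v1, v2⟩ := exists_mcube r φ hφ ρ hρ hmo hmem τ pos (quads s)
    (s1.sublist hsub) (s2.sublist hsub)
    (by
      intro D hD y hy hpos σ
      obtain ⟨S, hS1, hS2⟩ := s4 D (fun i hi => List.mem_toFinset.2 (hsub2 i
        (List.mem_toFinset.1 (hD hi)))) y hy hpos σ
      refine ⟨S, ?_, hS2⟩
      ext i
      constructor
      · intro hi
        obtain ⟨h1, h2⟩ := mem_inter.1 hi
        rw [← hS1]
        exact mem_inter.2 ⟨h1, List.mem_toFinset.2 (hsub2 i (List.mem_toFinset.1 h2))⟩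
      · intro hi
        refine mem_inter.2 ⟨?_, hD hi⟩
        rw [← hS1] at hi
        exact (mem_inter.1 hi).1)
  refine ⟨f, f1, f2, _, v, v1, v2, le_trans ?_ (NN_ge' s)⟩
  apply Real.rpow_le_rpow_of_exponent_le (by norm_num)
  have hkr : (1 : ℝ) ≤ k := by exact_mod_cast hk
  calc (h : ℝ) / (200 * k) = (h : ℝ) / (50 * k) / 4 := by field_simp; norm_num
    _ ≤ (s.length : ℝ) / 4 := by linarith

/-- the bound in terms of the dimension -/
theorem exists_slow' (hn : 2000000 ≤ n)
    (r : ℕ → (Fin n × Bool → Option ℕ) → Fin n × Bool)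
    (hr : ∀ (v : ℕ) (o : Fin n × Bool → Option ℕ), (∃ e, o e ≠ none) → o (r v o) ≠ none)
    (hbest : ∀ (v : ℕ) (o : Fin n × Bool → Option ℕ) (u : ℕ), (∃ e, o e ≠ none) →
      (∀ e w, o e = some w → w < u) → r v (Function.update o (r v o) (some u)) = r v o) :
    ∃ f : X n → ℕ, Function.Injective f ∧ Combed f ∧
      ∃ (L : ℕ) (v : ℕ → X n),
        (∀ k < L, (improving f (v k)).Nonempty ∧
          v (k + 1) = flip (v k) (r (f (v k)) (offers f (v k))).1) ∧
        improving f (v L) = ∅ ∧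
        (2 : ℝ) ^ ((n : ℝ) ^ (1 / 4 : ℝ) / (500 * Real.logb 2 n)) ≤ L + 2 := by
  have hnr : (2000000 : ℝ) ≤ n := by exact_mod_cast hn
  have hn0 : (0 : ℝ) ≤ n := by linarith
  set q : ℝ := (n : ℝ) ^ (1 / 4 : ℝ) with hq
  have hq4 : q ^ 4 = n := by
    rw [hq, ← Real.rpow_natCast, ← Real.rpow_mul hn0]
    norm_num
  have hqpos : 0 < q := by rw [hq]; apply Real.rpow_pos_of_pos; linarith
  have hq34 : 34 ≤ q := by
    by_contra hcon
    push Not at hcon
    have : q ^ 4 < 34 ^ 4 := pow_lt_pow_left₀ hcon hqpos.le (by norm_num)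
    rw [hq4] at this
    linarith
  set h : ℕ := ⌊q / (17 / 4)⌋₊ with hh
  have hle : (h : ℝ) ≤ q / (17 / 4) := Nat.floor_le (by positivity)
  have hge : q / (17 / 4) < h + 1 := Nat.lt_floor_add_one _
  have h8 : 8 ≤ h := by
    rw [hh]
    apply Nat.le_floor
    rw [le_div_iff₀ (by norm_num)]
    push_cast
    linarith
  have h8r : (8 : ℝ) ≤ h := by exact_mod_cast h8
  have h5 : q / 5 ≤ h := by linarith
  have hh4 : 320 * h ^ 4 ≤ n := by
    have e1 : (h : ℝ) ^ 4 ≤ (q / (17 / 4)) ^ 4 := pow_le_pow_left₀ (by positivity) hle 4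
    have e2 : (q / (17 / 4)) ^ 4 = n / (17 / 4) ^ 4 := by rw [div_pow, hq4]
    have e3 : 320 * (h : ℝ) ^ 4 ≤ n := by
      rw [e2] at e1
      have e4 : 320 * ((n : ℝ) / (17 / 4) ^ 4) ≤ n := by
        rw [mul_div_assoc', div_le_iff₀ (by norm_num)]
        norm_num
        linarith
      linarith
    exact_mod_cast e3
  set k : ℕ := Nat.clog 2 (8 * h) with hk
  have hk1 : 1 ≤ k := Nat.clog_pos (by norm_num) (by omega)
  have hkle : 8 * h ≤ 2 ^ k := Nat.le_pow_clog (by norm_num) _
  have hklt : 2 ^ (k - 1) < 8 * h := Nat.pow_pred_clog_lt_self (by norm_num) (by omega)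
  have hlog : (k : ℝ) ≤ Real.logb 2 n / 2 := by
    have e1 : (2 : ℝ) ^ k ≤ 4 * q := by
      have e2 : 2 ^ k ≤ 16 * h := by
        have : 2 ^ k = 2 * 2 ^ (k - 1) := by
          rw [← pow_succ']; congr 1; omega
        omega
      have e3 : (2 : ℝ) ^ k ≤ 16 * h := by exact_mod_cast e2
      have e4 : 16 * (h : ℝ) ≤ 16 * (q / (17 / 4)) := by linarith
      linarith
    have e5 : (k : ℝ) ≤ Real.logb 2 (4 * q) := by
      rw [← Real.rpow_natCast] at e1
      exact (Real.le_logb_iff_rpow_le (by norm_num) (by positivity)).2 e1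
    have e6 : Real.logb 2 (4 * q) = 2 + Real.logb 2 n / 4 := by
      rw [Real.logb_mul (by norm_num) hqpos.ne', hq, Real.logb_rpow_eq_mul_logb_of_pos (by linarith)]
      have : Real.logb 2 4 = 2 := by
        rw [show (4 : ℝ) = 2 ^ (2 : ℝ) by norm_num, Real.logb_rpow (by norm_num) (by norm_num)]
      rw [this]
      ring
    have e7 : 8 ≤ Real.logb 2 n := by
      rw [Real.le_logb_iff_rpow_le (by norm_num) (by linarith)]
      norm_num
      linarith
    linarith
  obtain ⟨f, hinj, hcomb, L, v, h1, h2, h3⟩ := exists_slow r hr hbest h k h8 hh4 hk1 hkle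
  refine ⟨f, hinj, hcomb, L, v, h1, h2, le_trans ?_ h3⟩
  apply Real.rpow_le_rpow_of_exponent_le (by norm_num)
  have hkr : (1 : ℝ) ≤ k := by exact_mod_cast hk1
  have hlogpos : 0 < Real.logb 2 n := by linarith
  rw [div_le_div_iff₀ (by positivity) (by positivity)]
  calc q * (200 * k) ≤ q * (200 * (Real.logb 2 n / 2)) := by gcongr
    _ = q / 5 * (500 * Real.logb 2 n) := by ring
    _ ≤ h * (500 * Real.logb 2 n) := by gcongr

end Pool.Agent.TH745.MR
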