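import Pool.Agent.TH745.MR.Cube
set_option autoImplicit false

/-!
# The objective function
-/

namespace Pool.Agent.TH745.MR

open Finset Pool.Agent.H454R3

variable {n : ℕ}

abbrev Quad (n : ℕ) := Fin n × Fin n × Fin n × Fin n

/-- the directions of a list of quadruples -/
def dl : List (Quad n) → List (Fin n)
  | [] => []
  | (a, b, c, d) :: L => a :: b :: c :: d :: dl L

/-- the number of steps -/
def NN : List (Quad n) → ℕ
  | [] => 0
  | _ :: L => 2 * NN L + (dl L).length + 4

/-- all coordinates in the list are changed -/
abbrev Top (p : Par n) (F : List (Fin n)) (x : X n) : Prop := ∀ i ∈ F, x i ≠ p.τ i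

/-- no coordinate in the list is changed -/
abbrev Bot (p : Par n) (F : List (Fin n)) (x : X n) : Prop := ∀ i ∈ F, x i = p.τ i

/-- all coordinates want to be changed -/
def Dn (p : Par n) : List (Fin n) → X n → ℤ
  | [], _ => 0
  | f :: F, x => if x f = p.τ f then -p.C + Dn p F x else Dn p F x

/-- the coordinates are reset one after the other -/
def Rs (p : Par n) : List (Fin n) → X n → ℤ
  | [], _ => 0
  | f :: F, x => if x f = p.τ f then p.B + Rs p F x else Dn p F x

/-- the main function -/
def G (p : Par n) : List (Quad n) → X n → ℤ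
  | [], _ => 0
  | (a, b, c, d) :: L, x =>
    if x a = p.τ a then G p L x - pen p d x - pen p c x - pen p b x
    else if x b = p.τ b then
      (G p L x + if Top p (dl L) x then p.B else p.ω a) - pen p d x - pen p c x
    else if x c = p.τ c then ((NN L + 2 : ℤ) * p.B + Rs p (dl L) x) - pen p d x
    else if x d = p.τ d then
      (NN L + 2 : ℤ) * p.B + (Rs p (dl L) x + if Bot p (dl L) x then p.B else p.ω c)
    else (NN L + 2 + (dl L).length + 2 : ℤ) * p.B + G p L x

/-- the steering data -/
def sr (p : Par n) {α : Type} (St : X n → α) : List (Quad n) → X n → α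
  | [], x => St x
  | (a, b, c, d) :: L, x =>
    if x a = p.τ a then sr p St L x
    else if x b = p.τ b then (if Top p (dl L) x then St x else sr p St L (flip x a))
    else if x c = p.τ c then St x
    else if x d = p.τ d then (if Bot p (dl L) x then St x else St (flip x c))
    else sr p St L x

section bounds

variable (p : Par n)

lemma Dn_dep (F : List (Fin n)) (x x' : X n) (h : ∀ i ∈ F, x i = x' i) : Dn p F x = Dn p F x' := by
  induction F with
  | nil => rfl
  | cons f F ih =>
    rw [Dn, Dn, ih fun i hi => h i (List.mem_cons_of_mem f hi), h f List.mem_cons_self]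

lemma Rs_dep (F : List (Fin n)) (x x' : X n) (h : ∀ i ∈ F, x i = x' i) : Rs p F x = Rs p F x' := by
  induction F with
  | nil => rfl
  | cons f F ih =>
    rw [Rs, Rs, ih fun i hi => h i (List.mem_cons_of_mem f hi), h f List.mem_cons_self,
      Dn_dep p F x x' fun i hi => h i (List.mem_cons_of_mem f hi)]

lemma Dn_le (F : List (Fin n)) (x : X n) : Dn p F x ≤ 0 := by
  induction F with
  | nil => exact le_rfl
  | cons f F ih => rw [Dn]; have := p.hC; split_ifs <;> omega

lemma Dn_ge (F : List (Fin n)) (x : X n) : -(F.length * p.C) ≤ Dn p F x := by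
  induction F with
  | nil => simp [Dn]
  | cons f F ih =>
    rw [Dn, List.length_cons]; have := p.hC; push_cast
    split_ifs <;> linarith

lemma Dn_top (F : List (Fin n)) (x : X n) (h : Top p F x) : Dn p F x = 0 := by
  induction F with
  | nil => rfl
  | cons f F ih =>
    rw [Dn, if_neg (h f List.mem_cons_self), ih fun i hi => h i (List.mem_cons_of_mem f hi)]

lemma B_pos : 0 < p.B := by
  have h1 := p.hC
  have h2 := p.hB
  have h3 : (0 : ℤ) ≤ (n : ℤ) * p.C := by positivity
  linarith

lemma Rs_le (F : List (Fin n)) (x : X n) : Rs p F x ≤ F.length * p.B := by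
  induction F with
  | nil => simp [Rs]
  | cons f F ih =>
    have h1 := B_pos p
    have h2 := Dn_le p F x
    have h3 : (0 : ℤ) ≤ F.length * p.B := by positivity
    rw [Rs, List.length_cons]; push_cast
    split_ifs <;> linarith

lemma Rs_ge (F : List (Fin n)) (x : X n) : -(F.length * p.C) ≤ Rs p F x := by
  induction F with
  | nil => simp [Rs]
  | cons f F ih =>
    have h1 := B_pos p
    have h2 := Dn_ge p F x
    have h3 := p.hC
    rw [Rs, List.length_cons]; push_cast
    split_ifs <;> linarith

lemma Rs_bot (F : List (Fin n)) (x : X n) (h : Bot p F x) : Rs p F x = F.length * p.B := by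
  induction F with
  | nil => simp [Rs]
  | cons f F ih =>
    rw [Rs, if_pos (h f List.mem_cons_self), ih fun i hi => h i (List.mem_cons_of_mem f hi),
      List.length_cons]
    push_cast; ring

lemma Rs_top (F : List (Fin n)) (x : X n) (h : Top p F x) : Rs p F x = 0 := by
  cases F with
  | nil => rfl
  | cons f F =>
    rw [Rs, if_neg (h f List.mem_cons_self), Dn_top p F x fun i hi => h i (List.mem_cons_of_mem f hi)]

lemma G_dep (L : List (Quad n)) (x x' : X n) (h : ∀ i ∈ dl L, x i = x' i) :
    G p L x = G p L x' := by
  induction L with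
  | nil => rfl
  | cons q L ih =>
    obtain ⟨a, b, c, d⟩ := q
    have hL : ∀ i ∈ dl L, x i = x' i := fun i hi => h i (by simp [dl, hi])
    have ha := h a (by simp [dl])
    have hb := h b (by simp [dl])
    have hc := h c (by simp [dl])
    have hd := h d (by simp [dl])
    have hT : Top p (dl L) x ↔ Top p (dl L) x' :=
      forall₂_congr fun i hi => by rw [hL i hi]
    have hB : Bot p (dl L) x ↔ Bot p (dl L) x' :=
      forall₂_congr fun i hi => by rw [hL i hi]
    unfold G pen
    rw [ih hL, ha, hb, hc, hd, Rs_dep p _ x x' hL]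
    simp only [hT, hB]

lemma G_bounds (L : List (Quad n)) (hn : (dl L).length ≤ n) (x : X n) :
    -((dl L).length * p.C) ≤ G p L x ∧ G p L x ≤ NN L * p.B := by
  induction L with
  | nil => simp [G, dl, NN]
  | cons q L ih =>
    obtain ⟨a, b, c, d⟩ := q
    have hlen : (dl ((a, b, c, d) :: L)).length = (dl L).length + 4 := rfl
    rw [hlen] at hn ⊢
    obtain ⟨h1, h2⟩ := ih (by omega)
    have hC := p.hC
    have hB := B_pos p
    have hBC := p.hB
    have hwa := p.hω0 a
    have hwa' := p.hω a
    have hwc := p.hω0 c
    have hwc' := p.hω c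
    have r1 := Rs_ge p (dl L) x
    have r2 := Rs_le p (dl L) x
    have pb := pen_ge p b x
    have pc := pen_ge p c x
    have pd := pen_ge p d x
    have pb' := pen_le p b x
    have pc' := pen_le p c x
    have pd' := pen_le p d x
    have hlC : ((dl L).length : ℤ) * p.C ≤ n * p.C := by
      apply mul_le_mul_of_nonneg_right _ hC.le
      exact_mod_cast (by omega : (dl L).length ≤ n)
    have hlB : (0 : ℤ) ≤ (dl L).length * p.B := by positivity
    have hNB : (0 : ℤ) ≤ NN L * p.B := by positivity
    have hnC : (0 : ℤ) ≤ n * p.C := by positivity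
    have hNN : (NN ((a, b, c, d) :: L) : ℤ) = 2 * NN L + (dl L).length + 4 := by
      rw [NN]; push_cast; ring
    rw [hNN]
    push_cast
    unfold G
    constructor <;> split_ifs <;> linarith

lemma G_top (L : List (Quad n)) (x : X n) (h : Top p (dl L) x) : G p L x = NN L * p.B := by
  induction L with
  | nil => simp [G, NN]
  | cons q L ih =>
    obtain ⟨a, b, c, d⟩ := q
    have hL : Top p (dl L) x := fun i hi => h i (by simp [dl, hi])
    have ha := h a (by simp [dl])
    have hb := h b (by simp [dl])
    have hc := h c (by simp [dl])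
    have hd := h d (by simp [dl])
    rw [G, if_neg ha, if_neg hb, if_neg hc, if_neg hd, ih hL, NN]
    push_cast; ring

lemma G_bot (L : List (Quad n)) (x : X n) (h : Bot p (dl L) x) : G p L x = 0 := by
  induction L with
  | nil => simp [G]
  | cons q L ih =>
    obtain ⟨a, b, c, d⟩ := q
    have hL : Bot p (dl L) x := fun i hi => h i (by simp [dl, hi])
    have ha := h a (by simp [dl])
    have hb := h b (by simp [dl])
    have hc := h c (by simp [dl])
    have hd := h d (by simp [dl])
    rw [G, if_pos ha, ih hL, pen_pos hb, pen_pos hc, pen_pos hd]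
    ring

lemma sr_dep {α : Type} (St : X n → α) (T : List (Fin n))
    (hSt : ∀ x x' : X n, (∀ i ∈ T, x i = x' i) → St x = St x') (L : List (Quad n))
    (hL : ∀ i ∈ dl L, i ∈ T) (x x' : X n) (h : ∀ i ∈ T, x i = x' i) :
    sr p St L x = sr p St L x' := by
  induction L generalizing x x' with
  | nil => exact hSt x x' h
  | cons q L ih =>
    obtain ⟨a, b, c, d⟩ := q
    have hL' : ∀ i ∈ dl L, i ∈ T := fun i hi => hL i (by simp [dl, hi])
    have ha := h a (hL a (by simp [dl]))
    have hb := h b (hL b (by simp [dl]))
    have hc := h c (hL c (by simp [dl]))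
    have hd := h d (hL d (by simp [dl]))
    have hT : Top p (dl L) x ↔ Top p (dl L) x' :=
      forall₂_congr fun i hi => by rw [h i (hL' i hi)]
    have hB : Bot p (dl L) x ↔ Bot p (dl L) x' :=
      forall₂_congr fun i hi => by rw [h i (hL' i hi)]
    have hf : ∀ e : Fin n, ∀ i ∈ T, flip x e i = flip x' e i := by
      intro e i hi
      by_cases hie : i = e
      · subst hie; rw [flip_self, flip_self, h i hi]
      · rw [flip_ne _ hie, flip_ne _ hie, h i hi]
    unfold sr
    rw [ih hL' x x' h, ih hL' _ _ (hf a), hSt x x' h, hSt _ _ (hf c), ha, hb, hc, hd]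
    simp only [hT, hB]

end bounds

end Pool.Agent.TH745.MR
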