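import Pool.Agent.TH745.MR.Fun
set_option autoImplicit false

/-!
# The objective function is combed
-/

namespace Pool.Agent.TH745.MR

open Finset Pool.Agent.H454R3

variable {n : ℕ} {α : Type}

lemma good_sw_same {p : Par n} {T : Finset (Fin n)} {F₀ F₁ : X n → ℤ} {s : X n → α}
    {a : Fin n} (ha : a ∉ T) (h₀ : Good p T F₀ s) (h₁ : Good p T F₁ s)
    (hlt : (∀ x, F₀ x < F₁ x) ∨ (∀ x, F₁ x < F₀ x)) (he : ∀ x : X n, p.C ≤ |F₁ x - F₀ x|) :
    Good p (insert a T) (fun x => if x a = p.τ a then F₀ x else F₁ x) s := by
  have h2 := good_sw ha h₀ h₁ hlt fun x _ => Or.inl (he x)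
  have e2 : s = fun x => if x a = p.τ a then s x else s x := by
    funext x; simp
  rw [e2]
  exact h2

lemma good_Dn (p : Par n) (s : X n → α) (F : List (Fin n)) (hF : F.Nodup) :
    Good p F.toFinset (Dn p F) s := by
  induction F with
  | nil => exact good_zero p 0 s
  | cons f F ih =>
    obtain ⟨h1, h2⟩ := List.nodup_cons.1 hF
    have h3 : f ∉ F.toFinset := fun h => h1 (List.mem_toFinset.1 h)
    have hC := p.hC
    have := good_sw_same h3 ((ih h2).add (-p.C)) (ih h2) (Or.inl fun x => by linarith)
      (fun x => by
        have : Dn p F x - (-p.C + Dn p F x) = p.C := by ring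
        rw [this]; exact le_abs_self _)
    rw [List.toFinset_cons]
    exact this

lemma good_Rs (p : Par n) (s : X n → α) (F : List (Fin n)) (hF : F.Nodup) (hn : F.length ≤ n) :
    Good p F.toFinset (Rs p F) s := by
  induction F with
  | nil => exact good_zero p 0 s
  | cons f F ih =>
    obtain ⟨h1, h2⟩ := List.nodup_cons.1 hF
    have h3 : f ∉ F.toFinset := fun h => h1 (List.mem_toFinset.1 h)
    have hn' : F.length ≤ n := by rw [List.length_cons] at hn; omega
    have hC := p.hC
    have hB := p.hB
    have hlC : (F.length : ℤ) * p.C ≤ n * p.C := by
      apply mul_le_mul_of_nonneg_right _ hC.le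
      exact_mod_cast hn'
    have key : ∀ x, p.C ≤ p.B + Rs p F x - Dn p F x := by
      intro x
      have r1 := Rs_ge p F x
      have r2 := Dn_le p F x
      linarith
    have := good_sw_same h3 ((ih h2 hn').add p.B) (good_Dn p s F h2)
      (Or.inr fun x => by have := key x; linarith)
      (fun x => by
        rw [abs_sub_comm]; exact (key x).trans (le_abs_self _))
    rw [List.toFinset_cons]
    exact this

/-- raising the function where it is maximal -/
lemma Good.bump {p : Par n} {T : Finset (Fin n)} {F : X n → ℤ} {s : X n → α} (h : Good p T F s)
    (P : X n → Prop) [DecidablePred P] (hP : ∀ x x' : X n, (∀ i ∈ T, x i = x' i) → (P x ↔ P x'))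
    (hmax : ∀ x, P x → ∀ y, F y ≤ F x) (u v : ℤ) (huv : u + p.C ≤ v) (s' : X n → α)
    (hs' : ∀ x : X n, ∀ i ∈ T, ¬ P x → ¬ P (flip x i) →
      p.C ≤ |F x - F (flip x i)| ∨ s' x = s' (flip x i)) :
    Good p T (fun x => F x + if P x then v else u) s' := by
  have hC := p.hC
  refine h.mod _ _ ?_ ?_ ?_
  · intro x x' hx
    rw [h.dep x x' hx]
    simp only [hP x x' hx]
  · intro x i hi
    have h1 := h.ne x i hi
    show F x + (if P x then v else u) < F (flip x i) + (if P (flip x i) then v else u) ↔ _
    by_cases hx : P x <;> by_cases hy : P (flip x i)
    · exact absurd (le_antisymm (hmax _ hy x) (hmax _ hx _)) h1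
    · rw [if_pos hx, if_neg hy]
      have := hmax _ hx (flip x i)
      constructor
      · intro h2; linarith
      · intro h2; linarith
    · rw [if_neg hx, if_pos hy]
      have h2 := lt_of_le_of_ne (hmax _ hy x) h1
      exact ⟨fun _ => h2, fun _ => by linarith⟩
    · rw [if_neg hx, if_neg hy]
      exact add_lt_add_iff_right u
  · intro x i hi
    show p.C ≤ |F x + (if P x then v else u) - (F (flip x i) + if P (flip x i) then v else u)| ∨ _
    have h1 := h.ne x i hi
    by_cases hx : P x <;> by_cases hy : P (flip x i)
    · exact absurd (le_antisymm (hmax _ hy x) (hmax _ hx _)) h1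
    · rw [if_pos hx, if_neg hy]
      have := hmax _ hx (flip x i)
      left
      refine le_trans ?_ (le_abs_self _)
      linarith
    · rw [if_neg hx, if_pos hy]
      have := hmax _ hy x
      left
      rw [abs_sub_comm]
      refine le_trans ?_ (le_abs_self _)
      linarith
    · rw [if_neg hx, if_neg hy, add_sub_add_right_eq_sub]
      exact hs' x i hi hx hy

theorem good_G (p : Par n) (St : X n → α) (L : List (Quad n)) (hL : (dl L).Nodup)
    (hn : (dl L).length ≤ n) : Good p (dl L).toFinset (G p L) (sr p St L) := by
  induction L with
  | nil => exact good_zero p 0 _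
  | cons q L ih =>
    obtain ⟨a, b, c, d⟩ := q
    have hlen : (dl ((a, b, c, d) :: L)).length = (dl L).length + 4 := rfl
    rw [hlen] at hn
    have hnd : (a :: b :: c :: d :: dl L).Nodup := hL
    obtain ⟨na, hnd⟩ := List.nodup_cons.1 hnd
    obtain ⟨nb, hnd⟩ := List.nodup_cons.1 hnd
    obtain ⟨nc, hnd⟩ := List.nodup_cons.1 hnd
    obtain ⟨nd, hnd⟩ := List.nodup_cons.1 hnd
    have ih := ih hnd (by omega)
    set TL := (dl L).toFinset with hTL
    have ha : a ∉ insert b (insert c (insert d TL)) := by
      intro h; apply na; simpa [hTL] using h
    have hb : b ∉ insert c (insert d TL) := by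
      intro h; apply nb; simpa [hTL] using h
    have hc : c ∉ insert d TL := by
      intro h; apply nc; simpa [hTL] using h
    have hd : d ∉ TL := by
      intro h; apply nd; simpa [hTL] using h
    have hbL : b ∉ TL := fun h => hb (mem_insert_of_mem (mem_insert_of_mem h))
    have hcL : c ∉ TL := fun h => hc (mem_insert_of_mem h)
    have haL : a ∉ TL := fun h => ha (mem_insert_of_mem (mem_insert_of_mem (mem_insert_of_mem h)))
    have hbd : b ∉ insert d TL := fun h => hb (mem_insert_of_mem h)
    have hC := p.hC
    have hB := B_pos p
    have hBC := p.hB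
    have hwa := p.hω0 a
    have hwa' := p.hω a
    have hwc := p.hω0 c
    have hwc' := p.hω c
    have hlC : ((dl L).length : ℤ) * p.C ≤ n * p.C := by
      apply mul_le_mul_of_nonneg_right _ hC.le
      exact_mod_cast (by omega : (dl L).length ≤ n)
    have hnC : (0 : ℤ) ≤ n * p.C := by positivity
    have r1 := Rs_ge p (dl L)
    have r2 := Rs_le p (dl L)
    have g1 := fun x => (G_bounds p L (by omega) x).1
    have g2 := fun x => (G_bounds p L (by omega) x).2
    have memT : ∀ i, i ∈ TL ↔ i ∈ dl L := fun i => List.mem_toFinset
    -- region 1
    have R1 : Good p (insert b (insert c (insert d TL)))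
        (fun x => G p L x - pen p d x - pen p c x - pen p b x) (sr p St L) :=
      ((ih.pen hd).pen hc).pen hb
    -- region 2
    have R2' : Good p TL (fun x => G p L x + if Top p (dl L) x then p.B else p.ω a)
        (fun x => if Top p (dl L) x then St x else sr p St L (flip x a)) := by
      refine ih.bump (fun x => Top p (dl L) x) ?_ ?_ _ _ (by linarith) _ ?_
      · intro x x' hx
        exact forall₂_congr fun i hi => by rw [hx i ((memT i).2 hi)]
      · intro x hx y
        rw [G_top p L x hx]; exact g2 y
      · intro x i hi hx hy
        show _ ∨ (if Top p (dl L) x then St x else sr p St L (flip x a)) =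
          (if Top p (dl L) (flip x i) then St (flip x i) else sr p St L (flip (flip x i) a))
        rw [if_neg hx, if_neg hy, flip_comm x i a]
        have e1 : ∀ z : X n, G p L (flip z a) = G p L z := fun z =>
          G_dep p L _ _ fun j hj => flip_ne z fun (h : j = a) => haL ((memT a).2 (h ▸ hj))
        have h1 := ih.edge (flip x a) i hi
        rw [flip_comm x a i, e1 x, e1 (flip x i), flip_comm x i a] at h1
        exact h1
    have R2 : Good p (insert c (insert d TL))
        (fun x => (G p L x + if Top p (dl L) x then p.B else p.ω a) - pen p d x - pen p c x)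
        (fun x => if Top p (dl L) x then St x else sr p St L (flip x a)) :=
      (R2'.pen hd).pen hc
    -- region 3
    have R3 : Good p (insert d TL)
        (fun x => ((NN L + 2 : ℤ) * p.B + Rs p (dl L) x) - pen p d x) St :=
      ((good_Rs p St (dl L) hnd (by omega)).add _).pen hd
    -- region 4
    have hRs : ∀ x : X n, ∀ i ∈ TL, p.C ≤ |Rs p (dl L) x - Rs p (dl L) (flip x i)| := by
      intro x i hi
      rcases (good_Rs p (fun x : X n => x) (dl L) hnd (by omega)).edge x i hi with h | h
      · exact h
      · exact absurd h.symm (flip_ne_self x i)
    have R4 : Good p TL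
        (fun x => (NN L + 2 : ℤ) * p.B + (Rs p (dl L) x + if Bot p (dl L) x then p.B else p.ω c))
        (fun x => if Bot p (dl L) x then St x else St (flip x c)) := by
      refine ((good_Rs p St (dl L) hnd (by omega)).bump (fun x => Bot p (dl L) x) ?_ ?_ (p.ω c) p.B
        (by linarith) _ ?_).add _
      · intro x x' hx
        exact forall₂_congr fun i hi => by rw [hx i ((memT i).2 hi)]
      · intro x hx y
        rw [Rs_bot p _ x hx]; exact r2 y
      · intro x i hi _ _
        exact Or.inl (hRs x i hi)
    -- region 5
    have R5 : Good p TL (fun x => (NN L + 2 + (dl L).length + 2 : ℤ) * p.B + G p L x)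
        (sr p St L) := ih.add _
    have flT : ∀ (e : Fin n), e ∉ TL → ∀ x : X n, (Top p (dl L) (flip x e) ↔ Top p (dl L) x) := by
      intro e he x
      exact forall₂_congr fun i hi => by
        rw [flip_ne x fun (h : i = e) => he ((memT e).2 (h ▸ hi))]
    have flB : ∀ (e : Fin n), e ∉ TL → ∀ x : X n, (Bot p (dl L) (flip x e) ↔ Bot p (dl L) x) := by
      intro e he x
      exact forall₂_congr fun i hi => by
        rw [flip_ne x fun (h : i = e) => he ((memT e).2 (h ▸ hi))]
    have R45 : Good p (insert d TL)
        (fun x => if x d = p.τ d then
            (NN L + 2 : ℤ) * p.B + (Rs p (dl L) x + if Bot p (dl L) x then p.B else p.ω c)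
          else (NN L + 2 + (dl L).length + 2 : ℤ) * p.B + G p L x)
        (fun x => if x d = p.τ d then (if Bot p (dl L) x then St x else St (flip x c))
          else sr p St L x) := by
      have key : ∀ x : X n, p.C ≤ ((NN L + 2 + (dl L).length + 2 : ℤ) * p.B + G p L x) -
          ((NN L + 2 : ℤ) * p.B + (Rs p (dl L) x + if Bot p (dl L) x then p.B else p.ω c)) := by
        intro x
        have := r2 x
        have := g1 x
        split_ifs <;> linarith
      refine good_sw hd R4 R5 (Or.inl fun x => ?_) (fun x _ => Or.inl ?_)
      · have := key x; linarith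
      · exact (key x).trans (le_abs_self _)
    have R345 : Good p (insert c (insert d TL))
        (fun x => if x c = p.τ c then ((NN L + 2 : ℤ) * p.B + Rs p (dl L) x) - pen p d x
          else if x d = p.τ d then
            (NN L + 2 : ℤ) * p.B + (Rs p (dl L) x + if Bot p (dl L) x then p.B else p.ω c)
          else (NN L + 2 + (dl L).length + 2 : ℤ) * p.B + G p L x)
        (fun x => if x c = p.τ c then St x
          else if x d = p.τ d then (if Bot p (dl L) x then St x else St (flip x c))
          else sr p St L x) := by
      refine good_sw hc R3 R45 (Or.inl fun x => ?_) (fun x hx => ?_)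
      · have := r2 x
        have := g1 x
        have := pen_ge p d x
        split_ifs <;> linarith
      · by_cases hxd : x d = p.τ d
        · by_cases hbx : Bot p (dl L) x
          · left
            rw [if_pos hxd, if_pos hbx, pen_pos hxd]
            refine le_trans ?_ (le_abs_self _)
            linarith
          · right
            have hcd : d ≠ c := fun (h : d = c) => hc (by rw [← h]; exact mem_insert_self d TL)
            show St x = (if flip x c d = p.τ d then (if Bot p (dl L) (flip x c) then St (flip x c)
              else St (flip (flip x c) c)) else sr p St L (flip x c))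
            rw [flip_ne x hcd, if_pos hxd, if_neg fun h => hbx ((flB c hcL x).1 h), flip_flip]
        · left
          rw [if_neg hxd, pen_neg hxd]
          refine le_trans ?_ (le_abs_self _)
          have := r2 x
          have := g1 x
          linarith
    have lo345 : ∀ x : X n, (NN L + 2 : ℤ) * p.B - n * p.C - p.C ≤
        (if x c = p.τ c then ((NN L + 2 : ℤ) * p.B + Rs p (dl L) x) - pen p d x
          else if x d = p.τ d then
            (NN L + 2 : ℤ) * p.B + (Rs p (dl L) x + if Bot p (dl L) x then p.B else p.ω c)
          else (NN L + 2 + (dl L).length + 2 : ℤ) * p.B + G p L x) := by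
      intro x
      have := r1 x
      have := g1 x
      have := pen_le p d x
      have h3 : (0 : ℤ) ≤ (dl L).length * p.B := by positivity
      split_ifs <;> linarith
    have R2345 := good_sw hb R2 R345
      (Or.inl fun x => by
        have := lo345 x
        have := g2 x
        have := pen_ge p d x
        have := pen_ge p c x
        refine lt_of_lt_of_le ?_ (lo345 x)
        split_ifs <;> linarith)
      (fun x _ => Or.inl (by
        have := lo345 x
        have := g2 x
        have := pen_ge p d x
        have := pen_ge p c x
        refine le_trans (le_trans ?_ (sub_le_sub_right (lo345 x) _)) (le_abs_self _)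
        split_ifs <;> linarith))
    have R := good_sw ha R1 R2345
      (Or.inl fun x => by
        have h4 := lo345 x
        have := g2 x
        have := pen_ge p d x
        have := pen_ge p c x
        have := pen_ge p b x
        by_cases hxb : x b = p.τ b
        · rw [if_pos hxb]; split_ifs <;> linarith
        · rw [if_neg hxb]
          refine lt_of_lt_of_le ?_ h4
          linarith)
      (fun x hx => by
        have h4 := lo345 x
        have := g2 x
        have := pen_ge p d x
        have := pen_ge p c x
        have := pen_ge p b x
        by_cases hxb : x b = p.τ b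
        · by_cases hxT : Top p (dl L) x
          · left
            rw [if_pos hxb, if_pos hxT]
            refine le_trans ?_ (le_abs_self _)
            linarith
          · right
            have hab : b ≠ a := fun (h : b = a) => ha (by rw [← h]; exact mem_insert_self _ _)
            show sr p St L x = (if flip x a b = p.τ b then (if Top p (dl L) (flip x a) then
              St (flip x a) else sr p St L (flip (flip x a) a)) else _)
            rw [flip_ne x hab, if_pos hxb, if_neg fun h => hxT ((flT a haL x).1 h), flip_flip]
        · left
          rw [if_neg hxb]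
          refine le_trans (le_trans ?_ (sub_le_sub_right h4 _)) (le_abs_self _)
          linarith)
    have e1 : (dl ((a, b, c, d) :: L)).toFinset = insert a (insert b (insert c (insert d TL))) := by
      simp [dl, hTL]
    rw [e1]
    exact R

end Pool.Agent.TH745.MR
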