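import Pool.Agent.TH745.MR.Steer
import Pool.Agent.TH745.MR.Defs
import Pool.Agent.H454R3.OFinal
set_option autoImplicit false

/-!
# Monotone rules are slow
-/

namespace Pool.Agent.TH745.MR

open Finset Pool.Agent.H454R3

variable {n : ℕ}

/-- an injective function with the same order on different values -/
lemma exists_inj (F : X n → ℤ) : ∃ A : X n → ℕ, Function.Injective A ∧
    ∀ x x', F x < F x' → A x < A x' := by
  classical
  obtain ⟨m, hm⟩ : ∃ m : ℤ, ∀ x, 0 ≤ F x + m := by
    refine ⟨∑ x, |F x|, fun x => ?_⟩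
    have h1 : |F x| ≤ ∑ x, |F x| := single_le_sum (fun i _ => abs_nonneg (F i)) (mem_univ x)
    have h2 := neg_abs_le (F x)
    linarith
  set N := Fintype.card (X n) with hN
  set e := Fintype.equivFin (X n) with he
  have hlt : ∀ x x', F x < F x' →
      N * (F x + m).toNat + (e x : ℕ) < N * (F x' + m).toNat + (e x' : ℕ) := by
    intro x x' h
    have h1 : (F x + m).toNat + 1 ≤ (F x' + m).toNat := by
      have := hm x
      have := hm x'
      omega
    have h2 : (e x : ℕ) < N := (e x).2
    calc N * (F x + m).toNat + (e x : ℕ) < N * (F x + m).toNat + N := by omega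
      _ = N * ((F x + m).toNat + 1) := by ring
      _ ≤ N * (F x' + m).toNat := Nat.mul_le_mul_left N h1
      _ ≤ _ := Nat.le_add_right _ _
  refine ⟨fun x => N * (F x + m).toNat + (e x : ℕ), ?_, hlt⟩
  intro x x' h
  have h' : N * (F x + m).toNat + (e x : ℕ) = N * (F x' + m).toNat + (e x' : ℕ) := h
  rcases lt_trichotomy (F x) (F x') with h1 | h1 | h1
  · have := hlt x x' h1; omega
  · rw [h1] at h'
    have : (e x : ℕ) = e x' := by omega
    exact e.injective (Fin.ext this)
  · have := hlt x' x h1; omega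

/-- the steering function -/
lemma exists_St (τ : X n) (pos : Fin n → ℕ) (Q : List (Quad n))
    (R : Finset (Fin n) → X n → Fin n)
    (hloc : ∀ (S : Finset (Fin n)) (x x' : X n), (∀ i ∈ S, x i = x' i) → R S x = R S x')
    (hst : ∀ D : Finset (Fin n), D ⊆ (dl Q).toFinset → ∀ y ∈ D,
      (∀ z ∈ D, z ≠ y → pos y < pos z) → ∀ σ : Bool, ∃ S : Finset (Fin n),
        S ∩ (dl Q).toFinset = D ∧ R S (Function.update τ y σ) = y)
    (I : X n → Finset (Fin n)) (hI : ∀ x, I x ⊆ (dl Q).toFinset) :
    ∃ St : X n → Finset (Fin n), (∀ x x' : X n, (∀ i ∈ dl Q, x i = x' i) → St x = St x') ∧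
      ∀ x, (∀ i, i ∉ dl Q → x i = τ i) → St x ∩ (dl Q).toFinset = I x ∧ (I x = ∅ → St x = ∅) ∧
        ∀ y ∈ I x, (∀ z ∈ I x, z ≠ y → pos y < pos z ∧ x z = τ z) → R (St x) x = y := by
  classical
  have hst' : ∀ v : X n, ∃ S : Finset (Fin n), (∀ i, i ∉ dl Q → v i = τ i) →
      S ∩ (dl Q).toFinset = I v ∧ (I v = ∅ → S = ∅) ∧
      ∀ y ∈ I v, (∀ z ∈ I v, z ≠ y → pos y < pos z ∧ v z = τ z) → R S v = y := by
    intro v
    by_cases h : ∃ y ∈ I v, ∀ z ∈ I v, z ≠ y → pos y < pos z ∧ v z = τ z
    · obtain ⟨y, hy, h1⟩ := h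
      obtain ⟨S, h2, h3⟩ := hst (I v) (hI v) y hy (fun z hz hzy => (h1 z hz hzy).1) (v y)
      refine ⟨S, fun hv => ⟨h2, fun h4 => ?_, ?_⟩⟩
      · rw [h4] at hy; simp at hy
      · intro y' hy' h5
        have hyy : y' = y := by
          by_contra hne
          have h6 := (h1 y' hy' hne).1
          have h7 := (h5 y hy (Ne.symm hne)).1
          omega
        rw [hyy]
        refine Eq.trans ?_ h3
        apply hloc
        intro i hi
        by_cases hiy : i = y
        · rw [hiy, Function.update_self]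
        · rw [Function.update_of_ne hiy]
          by_cases his : i ∈ dl Q
          · have : i ∈ I v := by
              rw [← h2]; exact mem_inter.2 ⟨hi, List.mem_toFinset.2 his⟩
            exact (h1 i this hiy).2
          · exact hv i his
    · refine ⟨I v, fun _ => ⟨inter_eq_left.2 (hI v), id, ?_⟩⟩
      intro y hy h1
      exact absurd ⟨y, hy, h1⟩ h
  choose St hSt using hst'
  set hat : X n → X n := fun x i => if i ∈ dl Q then x i else τ i with hhat
  have hhat1 : ∀ x x' : X n, (∀ i ∈ dl Q, x i = x' i) → hat x = hat x' := by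
    intro x x' h
    rw [hhat]
    funext i
    by_cases hi : i ∈ dl Q
    · simp only [hi, if_true]; exact h i hi
    · simp only [hi, if_false]
  refine ⟨fun x => St (hat x), fun x x' h => congrArg St (hhat1 x x' h), fun x hx => ?_⟩
  have h2 : hat x = x := by
    rw [hhat]
    funext i
    by_cases hi : i ∈ dl Q
    · simp only [hi, if_true]
    · simp only [hi, if_false]; exact (hx i hi).symm
  show St (hat x) ∩ (dl Q).toFinset = I x ∧ (I x = ∅ → St (hat x) = ∅) ∧
    ∀ y ∈ I x, (∀ z ∈ I x, z ≠ y → pos y < pos z ∧ x z = τ z) → R (St (hat x)) x = y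
  rw [h2]
  exact hSt x hx

/-- the steered cube -/
theorem exists_mcube (r : ℕ → (Fin n × Bool → Option ℕ) → Fin n × Bool) (h : ℕ → ℕ)
    (hh : StrictMono h) (ρ : Finset (Fin n × Bool) → Option (Fin n × Bool) → Fin n × Bool)
    (hρ : ∀ a : ℕ → ℕ, StrictMono a → ∀ E y, r (h (a 0)) (pat (fun j => h (a j)) E y) = ρ E y)
    (hmono : ∀ E : Finset (Fin n × Bool), E.Nonempty → ρ E (some (ρ E none)) = ρ E none)
    (hmem : ∀ E : Finset (Fin n × Bool), E.Nonempty → ρ E none ∈ E)
    (τ : X n) (pos : Fin n → ℕ) (Q : List (Quad n)) (hQ : (dl Q).Nodup)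
    (hpos : (dl Q).Pairwise fun i j => pos j < pos i)
    (hst : ∀ D : Finset (Fin n), D ⊆ (dl Q).toFinset → ∀ y ∈ D,
      (∀ z ∈ D, z ≠ y → pos y < pos z) → ∀ σ : Bool, ∃ S : Finset (Fin n),
        S ∩ (dl Q).toFinset = D ∧
          (ρ (S.image fun i => (i, Function.update τ y σ i)) none).1 = y) :
    ∃ f : X n → ℕ, Function.Injective f ∧ Combed f ∧
      ∃ v : ℕ → X n, v 0 = τ ∧ (∀ k < NN Q, (improving f (v k)).Nonempty ∧
        v (k + 1) = flip (v k) (r (f (v k)) (offers f (v k))).1) ∧
        improving f (v (NN Q)) = ∅ := by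
  classical
  have hn : (dl Q).length ≤ n := by
    have := hQ.length_le_card
    rwa [Fintype.card_fin] at this
  set R : Finset (Fin n) → X n → Fin n := fun S x => (ρ (S.image fun i => (i, x i)) none).1
    with hR
  set I : X n → Finset (Fin n) := fun x =>
    (dl Q).toFinset.filter fun i => G (par τ) Q x < G (par τ) Q (flip x i) with hI
  obtain ⟨St, hSt, hSt2⟩ := exists_St τ pos Q R
    (by
      intro S x x' hx
      rw [hR]
      simp only
      congr 2
      apply image_congr
      intro i hi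
      simp only
      rw [hx i hi])
    hst I (fun x => filter_subset _ _)
  obtain ⟨A, hA, hA2⟩ := exists_inj (Tot (par τ) Q St)
  set f : X n → ℕ := fun x => h ((n + 2) * A x) with hf
  have hflt : ∀ x x', f x < f x' ↔ A x < A x' := by
    intro x x'
    rw [hf]
    simp only
    rw [hh.lt_iff_lt]
    exact Nat.mul_lt_mul_left (by omega)
  have hAlt : ∀ x i, A x < A (flip x i) ↔ Tot (par τ) Q St x < Tot (par τ) Q St (flip x i) := by
    intro x i
    constructor
    · intro h1
      rcases lt_or_gt_of_ne (tot_ne τ Q St hQ hSt x i) with h2 | h2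
      · exact h2
      · have := hA2 _ _ h2; omega
    · exact hA2 _ _
  have himp : ∀ x i, i ∈ improving f x ↔
      Tot (par τ) Q St x < Tot (par τ) Q St (flip x i) := by
    intro x i
    rw [mem_improving, hflt, hAlt]
  have hinj : Function.Injective f := by
    intro x x' hx
    apply hA
    have h1 := hh.injective hx
    exact Nat.eq_of_mul_eq_mul_left (by omega) h1
  have hcomb : Combed f := by
    intro U x hU
    obtain ⟨i, hi, b, hb⟩ := tot_comb τ Q St hQ hSt U x hU
    exact ⟨i, hi, b, fun y hy => (himp y i).trans (hb y hy)⟩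
  -- the improving set at vertices of the path
  have himp2 : ∀ x : X n, (∀ i, i ∉ dl Q → x i = τ i) → sr (par τ) St Q x = St x →
      improving f x = St x := by
    intro x hx hs
    have h1 := (hSt2 x hx).1
    ext i
    rw [himp]
    by_cases hi : i ∈ dl Q
    · rw [(tot_main τ Q St hQ x i hi).1]
      constructor
      · intro h2
        have : i ∈ I x := mem_filter.2 ⟨List.mem_toFinset.2 hi, h2⟩
        rw [← h1] at this
        exact (mem_inter.1 this).1
      · intro h2
        have : i ∈ I x := by rw [← h1]; exact mem_inter.2 ⟨h2, List.mem_toFinset.2 hi⟩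
        exact (mem_filter.1 this).2
    · rw [(tot_steer_lt τ Q St hSt x i hi).1, hs]
      exact ⟨fun h2 => h2.1 (hx i hi), fun h2 => ⟨fun _ => h2, fun _ => hx i hi⟩⟩
  -- a step
  have hstep : ∀ x x' : X n, (∀ i, i ∉ dl Q → x i = τ i) →
      Stp (par τ) pos (dl Q) (G (par τ) Q) (fun St => sr (par τ) St Q) x x' →
      ((improving f x).Nonempty ∧ x' = flip x (r (f x) (offers f x)).1) ∧
        (∀ i, i ∉ dl Q → x' i = τ i) := by
    rintro x x' hx ⟨y, hy, rfl, h1, h2, h3⟩
    have hs : sr (par τ) St Q x = St x := h3 St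
    have hS := himp2 x hx hs
    obtain ⟨g1, g2, g3⟩ := hSt2 x hx
    have hB := B_pos (par τ)
    have hyI : y ∈ I x := mem_filter.2 ⟨List.mem_toFinset.2 hy, by linarith⟩
    have hw : ∀ z ∈ I x, z ≠ y → G (par τ) Q (flip x z) = G (par τ) Q x + (par τ).ω z ∧
        x z = τ z ∧ pos y < pos z := by
      intro z hz hzy
      obtain ⟨hz1, hz2⟩ := mem_filter.1 hz
      rcases h2 z (List.mem_toFinset.1 hz1) hzy with h4 | h4
      · exact absurd h4 (not_lt.2 hz2.le)
      · exact h4
    have hRy : R (St x) x = y := g3 y hyI fun z hz hzy => ⟨(hw z hz hzy).2.2, (hw z hz hzy).2.1⟩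
    have hyS : y ∈ St x := by
      have : y ∈ St x ∩ (dl Q).toFinset := by rw [g1]; exact hyI
      exact (mem_inter.1 this).1
    have hK : ∀ z : X n, (∀ i, i ∉ dl Q → z i = τ i) → ∀ S, Kt (par τ) (dl Q) S z = 0 := by
      intro z hz S
      unfold Kt
      apply sum_eq_zero
      intro w hw'
      exact if_pos (hz w (mem_filter.1 hw').2)
    have hx' : ∀ z ∈ dl Q, ∀ i, i ∉ dl Q → flip x z i = τ i := by
      intro z hz i hi
      rw [flip_ne x fun (h : i = z) => hi (h ▸ hz)]
      exact hx i hi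
    have ty : Tot (par τ) Q St (flip x y) = Tot (par τ) Q St x + (par τ).B := by
      unfold Tot
      rw [hK _ hx, hK _ (hx' y hy), h1]
      ring
    have tz : ∀ z ∈ St x, z ≠ y →
        Tot (par τ) Q St (flip x z) = Tot (par τ) Q St x + ((z : ℤ) + 1) := by
      intro z hz hzy
      by_cases hzQ : z ∈ dl Q
      · have hzI : z ∈ I x := by rw [← g1]; exact mem_inter.2 ⟨hz, List.mem_toFinset.2 hzQ⟩
        have h4 := (hw z hzI hzy).1
        unfold Tot
        rw [hK _ hx, hK _ (hx' z hzQ), h4]
        show _ + ((z : ℤ) + 1) + 0 = _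
        ring
      · rw [tot_steer τ Q St hSt x z hzQ, hs, if_pos (hx z hzQ), if_pos hz]
    have hBω : ∀ z : Fin n, ((z : ℕ) : ℤ) + 1 < (par τ).B := by
      intro z
      have h4 := (par τ).hω z
      have h5 := (par τ).hB
      have h6 := (par τ).hC
      have h7 : (0 : ℤ) ≤ (n : ℤ) * (par τ).C := by positivity
      have h8 : (par τ).ω z = (z : ℤ) + 1 := rfl
      rw [h8] at h4
      linarith
    -- the choice of the rule
    have hoff : offers f x = fun e => if e.1 ∈ St x ∧ e.2 = x e.1 then
        some (h ((n + 2) * A (flip x e.1))) else none := by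
      funext e
      unfold offers
      have h4 : (x e.1 = e.2 ∧ f x < f (flip x e.1)) ↔ (e.1 ∈ St x ∧ e.2 = x e.1) := by
        rw [← hS, mem_improving]
        exact ⟨fun h => ⟨h.2, h.1.symm⟩, fun h => ⟨h.2.symm, h.1⟩⟩
      simp only [h4]
      rfl
    have hpick := pick r h ρ hρ (n + 2) le_rfl (St x) x (A x) (fun i => A (flip x i)) y hyS
      (by
        intro i hi
        rw [hAlt, ← himp, hS]
        exact hi)
      (by
        intro i hi hiy
        apply hA2
        rw [tz i hi hiy, ty]
        have := hBω i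
        linarith)
      (by
        intro i hi j hj hiy hjy hij
        apply hA2
        rw [tz i hi hiy, tz j hj hjy]
        have : ((i : ℕ) : ℤ) < (j : ℕ) := by exact_mod_cast hij
        linarith)
    have hE : ((St x).image fun i => (i, x i)).Nonempty := ⟨(y, x y), mem_image_of_mem _ hyS⟩
    have hρy : ρ ((St x).image fun i => (i, x i)) none = (y, x y) := by
      have h4 := hmem _ hE
      obtain ⟨i, _, h5⟩ := mem_image.1 h4
      have h6 : (ρ ((St x).image fun i => (i, x i)) none).1 = y := hRy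
      rw [← h5] at h6 ⊢
      have h7 : i = y := h6
      rw [h7]
    have hch : r (f x) (offers f x) = (y, x y) := by
      rw [hoff]
      show r (h ((n + 2) * A x)) _ = _
      rw [hpick]
      have h4 := hmono _ hE
      rw [hρy] at h4
      exact h4
    refine ⟨⟨?_, by rw [hch]⟩, hx' y hy⟩
    rw [hS]
    exact ⟨y, hyS⟩
  obtain ⟨x', w1, w2, w3⟩ := walkG (par τ) pos Q hQ hn hpos τ (fun i _ => rfl)
  have w4 := w1.lift (P' := fun x x' => (improving f x).Nonempty ∧
    x' = flip x (r (f x) (offers f x)).1) (fun x => ∀ i, i ∉ dl Q → x i = τ i) hstep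
    (fun _ _ => rfl)
  have hseq : ∀ (k : ℕ) (x x' : X n), Wk (fun x x' => (improving f x).Nonempty ∧
      x' = flip x (r (f x) (offers f x)).1) k x x' → ∃ v : ℕ → X n, v 0 = x ∧
      (∀ j < k, (improving f (v j)).Nonempty ∧
        v (j + 1) = flip (v j) (r (f (v j)) (offers f (v j))).1) ∧ v k = x' := by
    intro k
    induction k with
    | zero => exact fun x x' h => ⟨fun _ => x, rfl, by simp, h⟩
    | succ k ih =>
      rintro x x' ⟨x₁, h1, h2⟩
      obtain ⟨w, w0, w1, w2⟩ := ih x₁ x' h2
      refine ⟨fun j => Nat.casesOn j x w, rfl, ?_, w2⟩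
      intro j hj
      cases j with
      | zero => exact ⟨h1.1, w0.trans h1.2⟩
      | succ j => exact w1 j (by omega)
  obtain ⟨v, v0, v1, v2⟩ := hseq _ _ _ w4.1
  refine ⟨f, hinj, hcomb, v, v0, v1, ?_⟩
  have hx' : ∀ i, i ∉ dl Q → x' i = τ i := w4.2
  have hIe : I x' = ∅ := by
    rw [hI]
    simp only
    rw [filter_eq_empty_iff]
    intro i _
    rw [G_top (par τ) Q x' w2]
    exact not_lt.2 (G_bounds (par τ) Q hn _).2
  rw [v2, himp2 x' hx' (sr_top (par τ) St Q x' w2)]
  exact (hSt2 x' hx').2.1 hIe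

end Pool.Agent.TH745.MR
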