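import Mathlib
set_option autoImplicit false

/-!
# The infinite Ramsey theorem and rules which see objective values
-/

namespace Pool.Agent.TH745.MR

open Finset

theorem lim_exists {κ : Type} [Finite κ] (U : Ultrafilter ℕ) (h : ℕ → κ) :
    ∃ c, ∀ᶠ n in (U : Filter ℕ), h n = c := by
  obtain ⟨c, hc⟩ := Ultrafilter.eq_pure_of_finite (U.map h)
  refine ⟨c, ?_⟩
  have h1 : {c} ∈ U.map h := by rw [hc]; exact Filter.mem_pure.2 rfl
  rw [Ultrafilter.mem_map] at h1
  exact h1

open Classical in
/-- iterated limit colourings -/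
noncomputable def iter {κ : Type} [Finite κ] (U : Ultrafilter ℕ) (f : Finset ℕ → κ) :
    ℕ → Finset ℕ → κ
  | 0 => f
  | (i + 1) => fun s => (lim_exists U (fun n => iter U f i (insert n s))).choose

theorem iter_spec {κ : Type} [Finite κ] (U : Ultrafilter ℕ) (f : Finset ℕ → κ) (i : ℕ)
    (s : Finset ℕ) : ∀ᶠ n in (U : Filter ℕ), iter U f i (insert n s) = iter U f (i + 1) s :=
  (lim_exists U (fun n => iter U f i (insert n s))).choose_spec

/-- The infinite Ramsey theorem for `k`-subsets of the natural numbers. -/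
theorem inf_ramsey {κ : Type} [Finite κ] (k : ℕ) (f : Finset ℕ → κ) :
    ∃ φ : ℕ → ℕ, StrictMono φ ∧ ∃ c, ∀ J : Finset ℕ, J.card = k → f (J.image φ) = c := by
  classical
  set U : Ultrafilter ℕ := Filter.hyperfilter ℕ with hU
  have hstep : ∀ A : Finset ℕ, ∃ n : ℕ, (∀ a ∈ A, a < n) ∧
      ∀ s ∈ A.powerset, ∀ i ∈ Finset.range k, iter U f i (insert n s) = iter U f (i + 1) s := by
    intro A
    have h1 : ∀ᶠ n in (U : Filter ℕ), ∀ a ∈ A, a < n := by
      rw [Filter.eventually_all_finset]
      intro a _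
      have h2 : ∀ᶠ n in Filter.atTop, a < n := Filter.eventually_gt_atTop a
      rw [← Nat.cofinite_eq_atTop] at h2
      exact Filter.hyperfilter_le_cofinite h2
    have h2 : ∀ᶠ n in (U : Filter ℕ), ∀ s ∈ A.powerset, ∀ i ∈ Finset.range k,
        iter U f i (insert n s) = iter U f (i + 1) s := by
      rw [Filter.eventually_all_finset]
      intro s _
      rw [Filter.eventually_all_finset]
      intro i _
      exact iter_spec U f i s
    exact (h1.and h2).exists
  choose g hg1 hg2 using hstep
  set A : ℕ → Finset ℕ := fun m => Nat.rec ∅ (fun _ B => insert (g B) B) m with hA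
  have hA0 : A 0 = ∅ := rfl
  have hAs : ∀ m, A (m + 1) = insert (g (A m)) (A m) := fun m => rfl
  have hAmono : ∀ m n, m ≤ n → A m ⊆ A n := by
    intro m n h
    induction n, h using Nat.le_induction with
    | base => exact Finset.Subset.refl _
    | succ n _ ih => rw [hAs]; exact ih.trans (Finset.subset_insert _ _)
  set φ : ℕ → ℕ := fun m => g (A m) with hφ
  have hφmem : ∀ m n, m < n → φ m ∈ A n := by
    intro m n h
    apply hAmono (m + 1) n h
    rw [hAs]
    exact Finset.mem_insert_self _ _
  refine ⟨φ, ?_, iter U f k ∅, ?_⟩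
  · intro m n h
    exact hg1 _ _ (hφmem m n h)
  · have key : ∀ J : Finset ℕ, J.card ≤ k → iter U f (k - J.card) (J.image φ) = iter U f k ∅ := by
      intro J
      induction J using Finset.induction_on_max with
      | empty => intro _; simp
      | insert m J hm ih =>
        intro hc
        have hmJ : m ∉ J := fun h => lt_irrefl _ (hm m h)
        rw [Finset.card_insert_of_notMem hmJ] at hc ⊢
        rw [Finset.image_insert]
        have hsub : J.image φ ∈ (A m).powerset := by
          rw [Finset.mem_powerset]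
          intro x hx
          rw [Finset.mem_image] at hx
          obtain ⟨j, hj, rfl⟩ := hx
          exact hφmem j m (hm j hj)
        have := hg2 (A m) _ hsub (k - (J.card + 1)) (by rw [Finset.mem_range]; omega)
        rw [show φ m = g (A m) from rfl, this, show k - (J.card + 1) + 1 = k - J.card by omega]
        exact ih (by omega)
    intro J hJ
    have := key J hJ.le
    rw [hJ, Nat.sub_self] at this
    exact this

/-- Ramsey theorem for increasing sequences -/
theorem hom_seq {κ : Type} [Finite κ] (N : ℕ) (Φ : (Fin N → ℕ) → κ) :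
    ∃ h : ℕ → ℕ, StrictMono h ∧ ∃ c, ∀ a : Fin N → ℕ, StrictMono a → Φ (fun j => h (a j)) = c := by
  classical
  obtain ⟨φ, hφ, c, hc⟩ := inf_ramsey N (fun J : Finset ℕ =>
    if h : J.card = N then Φ (fun j => J.orderEmbOfFin h j) else Φ (fun _ => 0))
  refine ⟨φ, hφ, c, fun a ha => ?_⟩
  have hinj : Function.Injective a := ha.injective
  have h1 : ((univ : Finset (Fin N)).image a).card = N := by
    rw [card_image_of_injective _ hinj, card_univ, Fintype.card_fin]
  have h2 := hc _ h1
  have h3 : (((univ : Finset (Fin N)).image a).image φ).card = N := by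
    rw [card_image_of_injective _ hφ.injective, h1]
  rw [dif_pos h3] at h2
  rw [← h2]
  congr 1
  exact Finset.orderEmbOfFin_unique h3 (fun j => mem_image_of_mem _ (mem_image_of_mem _ (mem_univ j)))
    (hφ.comp ha)

/-- the offers at a vertex: the facets in `E`, the facet `y` with the best value -/
def pat {n : ℕ} (a : ℕ → ℕ) (E : Finset (Fin n × Bool)) (y : Option (Fin n × Bool)) :
    Fin n × Bool → Option ℕ :=
  fun e => if e ∈ E then some (a (if some e = y then n + 1 else (e.1 : ℕ) + 1)) else none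

/-- homogeneous values for a rule -/
theorem hom_rule {n : ℕ} (r : ℕ → (Fin n × Bool → Option ℕ) → Fin n × Bool) :
    ∃ h : ℕ → ℕ, StrictMono h ∧
      ∃ ρ : Finset (Fin n × Bool) → Option (Fin n × Bool) → Fin n × Bool,
        ∀ a : ℕ → ℕ, StrictMono a → ∀ E y, r (h (a 0)) (pat (fun j => h (a j)) E y) = ρ E y := by
  classical
  obtain ⟨h, hh, c, hc⟩ := hom_seq (n + 2)
    (fun (b : Fin (n + 2) → ℕ) (p : Finset (Fin n × Bool) × Option (Fin n × Bool)) =>
      r (b 0) (pat (fun j => if hj : j < n + 2 then b ⟨j, hj⟩ else 0) p.1 p.2))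
  refine ⟨h, hh, fun E y => c (E, y), fun a ha E y => ?_⟩
  have h1 := congrFun (hc (fun j => a j) (fun i j hij => ha hij)) (E, y)
  refine Eq.trans ?_ h1
  show _ = r (h (a ((0 : Fin (n + 2)) : ℕ))) _
  congr 1
  funext e
  unfold pat
  have he := e.1.2
  by_cases h1 : e ∈ E
  · by_cases h2 : some e = y
    · simp only [h1, h2, if_true, dif_pos (show n + 1 < n + 2 by omega)]
    · simp only [h1, h2, if_true, if_false, dif_pos (show (e.1 : ℕ) + 1 < n + 2 by omega)]
  · simp only [h1, if_false]

/-- an increasing sequence with given values -/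
theorem fill (P : Finset ℕ) (val : ℕ → ℕ) (K : ℕ) (h0 : 0 ∈ P) (hK : ∀ j ∈ P, j < K)
    (hval : ∀ i ∈ P, ∀ j ∈ P, i < j → val i < val j) :
    ∃ a : ℕ → ℕ, StrictMono a ∧ ∀ j ∈ P, a j = K * val j := by
  classical
  set a : ℕ → ℕ := fun j => (P.filter (· ≤ j)).sup (fun i => K * val i + (j - i)) with ha
  refine ⟨a, strictMono_nat_of_lt_succ fun j => ?_, fun j hj => ?_⟩
  · have hne : (P.filter (· ≤ j)).Nonempty := ⟨0, mem_filter.2 ⟨h0, Nat.zero_le _⟩⟩
    obtain ⟨i, hi, h1⟩ := exists_mem_eq_sup _ hne (fun i => K * val i + (j - i))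
    have hi2 := mem_filter.1 hi
    have h2 : a j = K * val i + (j - i) := h1
    have h3 : K * val i + (j + 1 - i) ≤ a (j + 1) :=
      le_sup (f := fun i => K * val i + (j + 1 - i)) (mem_filter.2 ⟨hi2.1, by omega⟩)
    omega
  · apply le_antisymm
    · apply Finset.sup_le
      intro i hi
      obtain ⟨hiP, hij⟩ := mem_filter.1 hi
      rcases Nat.eq_or_lt_of_le hij with h | h
      · rw [h]; simp
      · have h1 := hval i hiP j hj h
        have h2 := hK j hj
        have h3 : K * val i + K ≤ K * val j := by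
          rw [← Nat.mul_succ]; exact Nat.mul_le_mul_left K h1
        show K * val i + (j - i) ≤ _
        omega
    · have := le_sup (f := fun i => K * val i + (j - i)) (s := P.filter (· ≤ j))
        (mem_filter.2 ⟨hj, le_rfl⟩)
      simpa using this

/-- the choice of a homogeneous rule at a vertex where `y` has the best value and the others are
ordered by their names -/
theorem pick {n : ℕ} (r : ℕ → (Fin n × Bool → Option ℕ) → Fin n × Bool) (h : ℕ → ℕ)
    (ρ : Finset (Fin n × Bool) → Option (Fin n × Bool) → Fin n × Bool)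
    (hρ : ∀ a : ℕ → ℕ, StrictMono a → ∀ E y, r (h (a 0)) (pat (fun j => h (a j)) E y) = ρ E y)
    (K : ℕ) (hK : n + 2 ≤ K) (S : Finset (Fin n)) (σ : Fin n → Bool) (v₀ : ℕ) (w : Fin n → ℕ)
    (y : Fin n) (hy : y ∈ S) (h1 : ∀ i ∈ S, v₀ < w i) (h2 : ∀ i ∈ S, i ≠ y → w i < w y)
    (h3 : ∀ i ∈ S, ∀ j ∈ S, i ≠ y → j ≠ y → i < j → w i < w j) :
    r (h (K * v₀)) (fun e => if e.1 ∈ S ∧ e.2 = σ e.1 then some (h (K * w e.1)) else none) =
      ρ (S.image fun i => (i, σ i)) (some (y, σ y)) := by
  classical
  set P : Finset ℕ := insert 0 (insert (n + 1) ((S.erase y).image fun i : Fin n => (i : ℕ) + 1))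
    with hP
  set val : ℕ → ℕ := fun j => if j = 0 then v₀ else if hj : j - 1 < n then w ⟨j - 1, hj⟩ else w y
    with hval
  have v0 : val 0 = v₀ := by rw [hval]; simp
  have v1 : val (n + 1) = w y := by rw [hval]; simp
  have v2 : ∀ i : Fin n, val ((i : ℕ) + 1) = w i := by intro i; rw [hval]; simp
  obtain ⟨a, ha, ha2⟩ := fill P val K (by rw [hP]; simp)
    (by
      intro j hj
      rw [hP] at hj
      simp only [mem_insert, mem_image] at hj
      rcases hj with h | h | ⟨i, _, h⟩
      · omega
      · omega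
      · have := i.2; omega)
    (by
      intro i hi j hj hij
      rw [hP] at hi hj
      simp only [mem_insert, mem_image, mem_erase] at hi hj
      rcases hj with h | h | ⟨j', hj', h⟩
      · omega
      · rw [h, v1]
        rcases hi with h' | h' | ⟨i', hi', h'⟩
        · rw [h', v0]; exact h1 y hy
        · omega
        · rw [← h', v2]; exact h2 i' hi'.2 hi'.1
      · rw [← h, v2]
        rcases hi with h' | h' | ⟨i', hi', h'⟩
        · rw [h', v0]; exact h1 j' hj'.2
        · have := j'.2; omega
        · rw [← h', v2]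
          exact h3 i' hi'.2 j' hj'.2 hi'.1 hj'.1 (by rw [Fin.lt_def]; omega))
  have a0 : a 0 = K * v₀ := by rw [ha2 0 (by rw [hP]; simp), v0]
  have a1 : a (n + 1) = K * w y := by rw [ha2 (n + 1) (by rw [hP]; simp), v1]
  have a2 : ∀ i ∈ S, i ≠ y → a ((i : ℕ) + 1) = K * w i := by
    intro i hi hiy
    rw [ha2 _ (by rw [hP]; simp only [mem_insert, mem_image, mem_erase]; exact Or.inr (Or.inr ⟨i, ⟨hiy, hi⟩, rfl⟩)), v2]
  rw [← hρ a ha, a0]
  congr 1
  funext e
  unfold pat
  have hmem : e ∈ S.image (fun i => (i, σ i)) ↔ e.1 ∈ S ∧ e.2 = σ e.1 := by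
    rw [mem_image]
    constructor
    · rintro ⟨i, hi, rfl⟩; exact ⟨hi, rfl⟩
    · rintro ⟨h4, h5⟩; exact ⟨e.1, h4, by rw [← h5]⟩
  by_cases he : e.1 ∈ S ∧ e.2 = σ e.1
  · rw [if_pos he, if_pos (hmem.2 he)]
    by_cases hey : e.1 = y
    · have : some e = some (y, σ y) := by
        congr 1
        exact Prod.ext hey (by rw [he.2, hey])
      rw [if_pos this]
      show _ = some (h (a (n + 1)))
      rw [a1, hey]
    · have : ¬ some e = some (y, σ y) := by
        intro h
        exact hey (congrArg Prod.fst (Option.some_injective _ h))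
      rw [if_neg this]
      show _ = some (h (a ((e.1 : ℕ) + 1)))
      rw [a2 e.1 he.1 hey]
  · rw [if_neg he, if_neg fun h => he (hmem.1 h)]

end Pool.Agent.TH745.MR
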