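import Pool.Agent.TH745.MR.Walk
import Pool.Agent.TH745.MR.Ram
set_option autoImplicit false

/-!
# Steering directions
-/

namespace Pool.Agent.TH745.MR

open Finset Pool.Agent.H454R3

variable {n : ℕ}

/-- the parameters -/
def par (τ : X n) : Par n where
  τ := τ
  B := (n : ℤ) * ((n : ℤ) + 1) ^ 2 + 4 * ((n : ℤ) + 1) ^ 2
  C := ((n : ℤ) + 1) ^ 2
  ω := fun i => (i : ℤ) + 1
  hC := by positivity
  hω0 := fun i => by positivity
  hω := fun i => by
    have h1 : ((i : ℕ) : ℤ) < n := by exact_mod_cast i.2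
    nlinarith
  hB := le_rfl

/-- the contribution of the steering directions -/
def Kt (p : Par n) (T : List (Fin n)) (S : Finset (Fin n)) (x : X n) : ℤ :=
  ∑ z ∈ univ.filter (fun z => z ∉ T), if x z = p.τ z then 0 else if z ∈ S then p.ω z else -1

/-- the objective function with steering directions -/
def Tot (p : Par n) (Q : List (Quad n)) (St : X n → Finset (Fin n)) (x : X n) : ℤ :=
  G p Q x + Kt p (dl Q) (sr p St Q x) x

lemma Kt_le (p : Par n) (T : List (Fin n)) (S : Finset (Fin n)) (x : X n) :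
    Kt p T S x ≤ ∑ z, p.ω z := by
  unfold Kt
  refine (sum_le_sum fun z _ => ?_).trans
    (sum_le_sum_of_subset_of_nonneg (filter_subset _ _) fun z _ _ => (p.hω0 z).le)
  have := p.hω0 z
  split_ifs <;> omega

lemma Kt_ge (p : Par n) (T : List (Fin n)) (S : Finset (Fin n)) (x : X n) :
    -(n : ℤ) ≤ Kt p T S x := by
  unfold Kt
  have h1 : ∑ z ∈ univ.filter (fun z : Fin n => z ∉ T), (-1 : ℤ) ≤
      ∑ z ∈ univ.filter (fun z => z ∉ T), if x z = p.τ z then 0 else if z ∈ S then p.ω z else -1 := by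
    apply sum_le_sum
    intro z _
    have := p.hω0 z
    split_ifs <;> omega
  refine le_trans ?_ h1
  rw [sum_const, nsmul_eq_mul]
  have h2 : (univ.filter (fun z : Fin n => z ∉ T)).card ≤ n := by
    have := card_filter_le (univ : Finset (Fin n)) (fun z => z ∉ T)
    rwa [card_univ, Fintype.card_fin] at this
  have h3 : ((univ.filter (fun z : Fin n => z ∉ T)).card : ℤ) ≤ n := by exact_mod_cast h2
  linarith

lemma sum_par (τ : X n) : ∑ z, (par τ).ω z + n < (par τ).C := by
  have h1 : ∑ z, (par τ).ω z ≤ ∑ _z : Fin n, (n : ℤ) := by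
    apply sum_le_sum
    intro z _
    show ((z : ℕ) : ℤ) + 1 ≤ n
    have h1 : ((z : ℕ) : ℤ) < n := by exact_mod_cast z.2
    omega
  rw [sum_const, card_univ, Fintype.card_fin, nsmul_eq_mul] at h1
  show _ < ((n : ℤ) + 1) ^ 2
  nlinarith

lemma Kt_congr (p : Par n) (T : List (Fin n)) (S : Finset (Fin n)) (x : X n) (i : Fin n)
    (hi : i ∈ T) : Kt p T S (flip x i) = Kt p T S x := by
  unfold Kt
  apply sum_congr rfl
  intro z hz
  have : z ≠ i := by
    rintro rfl
    exact (mem_filter.1 hz).2 hi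
  rw [flip_ne x this]

section

variable (τ : X n) (Q : List (Quad n)) (St : X n → Finset (Fin n))

/-- main directions -/
lemma tot_main (hQ : (dl Q).Nodup) (x : X n) (i : Fin n) (hi : i ∈ dl Q) :
    (Tot (par τ) Q St x < Tot (par τ) Q St (flip x i) ↔
      G (par τ) Q x < G (par τ) Q (flip x i)) ∧
    Tot (par τ) Q St x ≠ Tot (par τ) Q St (flip x i) := by
  have hn : (dl Q).length ≤ n := by
    have := hQ.length_le_card
    rwa [Fintype.card_fin] at this
  have hg := good_G (par τ) St Q hQ hn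
  have h1 := hg.ne x i (List.mem_toFinset.2 hi)
  unfold Tot
  rw [Kt_congr _ _ _ _ _ hi]
  rcases hg.edge x i (List.mem_toFinset.2 hi) with h2 | h2
  · have k1 := Kt_le (par τ) (dl Q) (sr (par τ) St Q x) x
    have k2 := Kt_ge (par τ) (dl Q) (sr (par τ) St Q x) x
    have k3 := Kt_le (par τ) (dl Q) (sr (par τ) St Q (flip x i)) x
    have k4 := Kt_ge (par τ) (dl Q) (sr (par τ) St Q (flip x i)) x
    have k5 := sum_par τ
    rcases le_abs.1 h2 with h3 | h3
    · refine ⟨⟨fun h => by linarith, fun h => by linarith⟩, fun h => by linarith⟩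
    · refine ⟨⟨fun h => by linarith, fun h => by linarith⟩, fun h => by linarith⟩
  · rw [← h2]
    exact ⟨add_lt_add_iff_right _, fun h => h1 (add_right_cancel h)⟩

/-- steering directions -/
lemma tot_steer (hSt : ∀ x x' : X n, (∀ i ∈ dl Q, x i = x' i) → St x = St x')
    (x : X n) (z : Fin n) (hz : z ∉ dl Q) :
    Tot (par τ) Q St (flip x z) = Tot (par τ) Q St x +
      (if x z = τ z then (if z ∈ sr (par τ) St Q x then (z : ℤ) + 1 else -1)
        else -(if z ∈ sr (par τ) St Q x then (z : ℤ) + 1 else -1)) := by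
  have e1 : sr (par τ) St Q (flip x z) = sr (par τ) St Q x :=
    sr_dep (par τ) St (dl Q) hSt Q (fun i hi => hi) _ _ fun i hi =>
      flip_ne x fun (h : i = z) => hz (h ▸ hi)
  unfold Tot Kt
  rw [G_flip Q hz, e1]
  have hzm : z ∈ univ.filter (fun z => z ∉ dl Q) := mem_filter.2 ⟨mem_univ z, hz⟩
  rw [← add_sum_erase _ _ hzm, ← add_sum_erase (univ.filter (fun z => z ∉ dl Q)) _ hzm]
  have e2 : ∑ w ∈ (univ.filter (fun z => z ∉ dl Q)).erase z,
      (if flip x z w = (par τ).τ w then 0 else if w ∈ sr (par τ) St Q x then (par τ).ω w else -1) =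
      ∑ w ∈ (univ.filter (fun z => z ∉ dl Q)).erase z,
      (if x w = (par τ).τ w then 0 else if w ∈ sr (par τ) St Q x then (par τ).ω w else -1) := by
    apply sum_congr rfl
    intro w hw
    rw [flip_ne x (ne_of_mem_erase hw)]
  rw [e2]
  have e3 : (par τ).τ = τ := rfl
  have e4 : (par τ).ω z = (z : ℤ) + 1 := rfl
  rw [e3, e4]
  by_cases hx : x z = τ z
  · have : ¬ flip x z z = τ z := by rw [flip_self, hx]; cases τ z <;> simp
    rw [if_pos hx, if_pos hx, if_neg this]; ring
  · have : flip x z z = τ z := by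
      rw [flip_self]; revert hx; cases x z <;> cases τ z <;> simp
    rw [if_neg hx, if_neg hx, if_pos this]; ring

lemma tot_steer_lt (hSt : ∀ x x' : X n, (∀ i ∈ dl Q, x i = x' i) → St x = St x')
    (x : X n) (z : Fin n) (hz : z ∉ dl Q) :
    (Tot (par τ) Q St x < Tot (par τ) Q St (flip x z) ↔
      (x z = τ z ↔ z ∈ sr (par τ) St Q x)) ∧
    Tot (par τ) Q St x ≠ Tot (par τ) Q St (flip x z) := by
  rw [tot_steer τ Q St hSt x z hz]
  have h0 : (0 : ℤ) ≤ ((z : ℕ) : ℤ) := by positivity
  by_cases hx : x z = τ z <;> by_cases hs : z ∈ sr (par τ) St Q x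
  · rw [if_pos hx, if_pos hs]
    refine ⟨⟨fun _ => by simp [hx, hs], fun _ => by linarith⟩, by linarith⟩
  · rw [if_pos hx, if_neg hs]
    refine ⟨⟨fun h => by linarith, fun h => by simp [hx, hs] at h⟩, by linarith⟩
  · rw [if_neg hx, if_pos hs]
    refine ⟨⟨fun h => by linarith, fun h => by simp [hx, hs] at h⟩, by linarith⟩
  · rw [if_neg hx, if_neg hs]
    refine ⟨⟨fun _ => by simp [hx, hs], fun _ => by linarith⟩, by linarith⟩

/-- all edges are strict -/
lemma tot_ne (hQ : (dl Q).Nodup) (hSt : ∀ x x' : X n, (∀ i ∈ dl Q, x i = x' i) → St x = St x')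
    (x : X n) (i : Fin n) : Tot (par τ) Q St x ≠ Tot (par τ) Q St (flip x i) := by
  by_cases hi : i ∈ dl Q
  · exact (tot_main τ Q St hQ x i hi).2
  · exact (tot_steer_lt τ Q St hSt x i hi).2

/-- the objective function is combed -/
lemma tot_comb (hQ : (dl Q).Nodup) (hSt : ∀ x x' : X n, (∀ i ∈ dl Q, x i = x' i) → St x = St x')
    (U : Finset (Fin n)) (x : X n) (hU : U.Nonempty) : ∃ i ∈ U, ∃ b : Bool, ∀ y : X n,
      (∀ j, j ∉ U → y j = x j) →
      (Tot (par τ) Q St y < Tot (par τ) Q St (flip y i) ↔ y i = b) := by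
  have hn : (dl Q).length ≤ n := by
    have := hQ.length_le_card
    rwa [Fintype.card_fin] at this
  by_cases hne : (U ∩ (dl Q).toFinset).Nonempty
  · obtain ⟨i, hi, b, hb⟩ := (good_G (par τ) St Q hQ hn).comb (U ∩ (dl Q).toFinset)
      inter_subset_right hne x
    obtain ⟨hiU, hiQ⟩ := mem_inter.1 hi
    have hiQ' := List.mem_toFinset.1 hiQ
    refine ⟨i, hiU, b, fun y hy => ?_⟩
    rw [(tot_main τ Q St hQ y i hiQ').1]
    set y' : X n := fun j => if j ∈ dl Q then y j else x j with hy'
    have h1 : ∀ j ∈ dl Q, y j = y' j := fun j hj => by rw [hy']; simp [hj]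
    have h2 := hb y' (by
      intro j hj
      rw [hy']
      by_cases hjQ : j ∈ dl Q
      · simp only [hjQ, if_true]
        exact hy j fun h => hj (mem_inter.2 ⟨h, List.mem_toFinset.2 hjQ⟩)
      · simp only [hjQ, if_false])
    rw [G_dep (par τ) Q y y' h1, G_dep (par τ) Q (flip y i) (flip y' i), h1 i hiQ']
    · exact h2
    · intro j hj
      by_cases hji : j = i
      · subst hji; rw [flip_self, flip_self, h1 j hj]
      · rw [flip_ne _ hji, flip_ne _ hji, h1 j hj]
  · rw [not_nonempty_iff_eq_empty] at hne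
    obtain ⟨z, hz⟩ := hU
    have hzQ : z ∉ dl Q := by
      intro h
      have : z ∈ U ∩ (dl Q).toFinset := mem_inter.2 ⟨hz, List.mem_toFinset.2 h⟩
      rw [hne] at this
      simp at this
    refine ⟨z, hz, if z ∈ sr (par τ) St Q x then τ z else !τ z, fun y hy => ?_⟩
    rw [(tot_steer_lt τ Q St hSt y z hzQ).1]
    have e1 : sr (par τ) St Q y = sr (par τ) St Q x :=
      sr_dep (par τ) St (dl Q) hSt Q (fun i hi => hi) _ _ fun i hi => by
        apply hy i
        intro h
        have : i ∈ U ∩ (dl Q).toFinset := mem_inter.2 ⟨h, List.mem_toFinset.2 hi⟩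
        rw [hne] at this
        simp at this
    rw [e1]
    by_cases hs : z ∈ sr (par τ) St Q x
    · simp [hs]
    · simp only [hs, iff_false, if_false]
      cases y z <;> cases τ z <;> simp

end

end Pool.Agent.TH745.MR
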