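import Pool.Agent.TH745.MR.GoodG
set_option autoImplicit false

/-!
# The long path
-/

namespace Pool.Agent.TH745.MR

open Finset Pool.Agent.H454R3

variable {n : ℕ}

/-- a step of length `B`; the other improving directions wait in their initial state and have
improvement `ω` -/
def Stp (p : Par n) (pos : Fin n → ℕ) (T : List (Fin n)) (F : X n → ℤ)
    (s : (X n → Finset (Fin n)) → X n → Finset (Fin n)) (x x' : X n) : Prop :=
  ∃ y ∈ T, x' = flip x y ∧ F x' = F x + p.B ∧
    (∀ z ∈ T, z ≠ y → F (flip x z) < F x ∨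
      (F (flip x z) = F x + p.ω z ∧ x z = p.τ z ∧ pos y < pos z)) ∧
    ∀ St, s St x = St x

/-- walks -/
def Wk (P : X n → X n → Prop) : ℕ → X n → X n → Prop
  | 0, x, x' => x = x'
  | k + 1, x, x' => ∃ x'', P x x'' ∧ Wk P k x'' x'

lemma Wk.trans {P : X n → X n → Prop} {k l : ℕ} {x y z : X n} (h : Wk P k x y)
    (h' : Wk P l y z) : Wk P (k + l) x z := by
  induction k generalizing x with
  | zero =>
    have h1 : x = y := h
    subst h1
    rwa [zero_add]
  | succ k ih =>
    obtain ⟨x', h1, h2⟩ := h
    rw [show k + 1 + l = (k + l) + 1 by ring]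
    exact ⟨x', h1, ih h2⟩

lemma Wk.one {P : X n → X n → Prop} {x y : X n} (h : P x y) : Wk P 1 x y := ⟨y, h, rfl⟩

lemma Wk.lift {P P' : X n → X n → Prop} (inv : X n → Prop)
    (h : ∀ x x', inv x → P x x' → P' x x' ∧ inv x') {k : ℕ} {x x' : X n} (hw : Wk P k x x')
    (hx : inv x) : Wk P' k x x' ∧ inv x' := by
  induction k generalizing x with
  | zero =>
    have h1 : x = x' := hw
    subst h1
    exact ⟨rfl, hx⟩
  | succ k ih =>
    obtain ⟨x'', h1, h2⟩ := hw
    obtain ⟨h3, h4⟩ := h x x'' hx h1
    obtain ⟨h5, h6⟩ := ih h2 h4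
    exact ⟨⟨x'', h3, h5⟩, h6⟩

section

variable {p : Par n}

lemma st_ne {x : X n} {e z : Fin n} (h : e ≠ z) : (flip x z e = p.τ e) ↔ (x e = p.τ e) := by
  rw [flip_ne x h]

lemma st_self {x : X n} {z : Fin n} : (flip x z z = p.τ z) ↔ ¬ (x z = p.τ z) := by
  rw [flip_self]; cases x z <;> cases p.τ z <;> simp

lemma top_flip {F : List (Fin n)} {e : Fin n} (he : e ∉ F) (x : X n) :
    Top p F (flip x e) ↔ Top p F x :=
  forall₂_congr fun i hi => by rw [flip_ne x fun (h : i = e) => he (h ▸ hi)]

lemma bot_flip {F : List (Fin n)} {e : Fin n} (he : e ∉ F) (x : X n) :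
    Bot p F (flip x e) ↔ Bot p F x :=
  forall₂_congr fun i hi => by rw [flip_ne x fun (h : i = e) => he (h ▸ hi)]

lemma Rs_flip (F : List (Fin n)) {e : Fin n} (he : e ∉ F) (x : X n) :
    Rs p F (flip x e) = Rs p F x :=
  Rs_dep p F _ _ fun j hj => flip_ne x fun (h : j = e) => he (h ▸ hj)

lemma Dn_flip (F : List (Fin n)) {e : Fin n} (he : e ∉ F) (x : X n) :
    Dn p F (flip x e) = Dn p F x :=
  Dn_dep p F _ _ fun j hj => flip_ne x fun (h : j = e) => he (h ▸ hj)

lemma G_flip (L : List (Quad n)) {e : Fin n} (he : e ∉ dl L) (x : X n) :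
    G p L (flip x e) = G p L x :=
  G_dep p L _ _ fun j hj => flip_ne x fun (h : j = e) => he (h ▸ hj)

lemma Dn_lt (F : List (Fin n)) (hF : F.Nodup) (x : X n) (hx : Top p F x) (z : Fin n)
    (hz : z ∈ F) : Dn p F (flip x z) < 0 := by
  have h1 := (good_Dn p (fun x : X n => x) F hF).ne x z (List.mem_toFinset.2 hz)
  rw [Dn_top p F x hx] at h1
  exact lt_of_le_of_ne (Dn_le p F _) (Ne.symm h1)

/-- resetting -/
lemma walkR (pos : Fin n → ℕ) (F : List (Fin n)) (hF : F.Nodup) (hn : F.length ≤ n) (x : X n)
    (hx : Top p F x) : ∃ x' : X n, Wk (Stp p pos F (Rs p F) (fun St => St)) F.length x x' ∧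
      Bot p F x' ∧ ∀ i, i ∉ F → x' i = x i := by
  induction F generalizing x with
  | nil => exact ⟨x, rfl, fun i hi => absurd hi List.not_mem_nil, fun _ _ => rfl⟩
  | cons f F ih =>
    obtain ⟨nf, hF'⟩ := List.nodup_cons.1 hF
    have hn' : F.length ≤ n := by rw [List.length_cons] at hn; omega
    have hxF : Top p F x := fun i hi => hx i (List.mem_cons_of_mem f hi)
    have hxf : ¬ x f = p.τ f := hx f List.mem_cons_self
    have hB := B_pos p
    have hC := p.hC
    have hBC := p.hB
    have hlC : (F.length : ℤ) * p.C ≤ n * p.C := by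
      apply mul_le_mul_of_nonneg_right _ hC.le
      exact_mod_cast hn'
    have hne : ∀ {i}, i ∈ F → i ≠ f := fun hi h => nf (h ▸ hi)
    have s1 : Stp p pos (f :: F) (Rs p (f :: F)) (fun St => St) x (flip x f) := by
      refine ⟨f, List.mem_cons_self, rfl, ?_, ?_, fun _ => rfl⟩
      · rw [Rs, Rs, if_pos (st_self.2 hxf), if_neg hxf, Rs_flip F nf, Rs_top p F x hxF,
          Dn_top p F x hxF]
        ring
      · intro z hz hzf
        left
        have hzF : z ∈ F := (List.mem_cons.1 hz).resolve_left hzf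
        rw [Rs, Rs, if_neg hxf, if_neg fun h => hxf ((st_ne (Ne.symm hzf)).1 h),
          Dn_top p F x hxF]
        exact Dn_lt F hF' x hxF z hzF
    obtain ⟨x', w1, w2, w3⟩ := ih hF' hn' (flip x f) ((top_flip nf x).2 hxF)
    have w4 := w1.lift (P' := Stp p pos (f :: F) (Rs p (f :: F)) (fun St => St))
      (fun x => x f = p.τ f) (by
        rintro u u' hu ⟨y, hy, rfl, h1, h2, h3⟩
        have hyf := hne hy
        have hu' : flip u y f = p.τ f := (st_ne (Ne.symm hyf)).2 hu
        refine ⟨⟨y, List.mem_cons_of_mem f hy, rfl, ?_, ?_, fun _ => rfl⟩, hu'⟩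
        · rw [Rs, Rs, if_pos hu', if_pos hu, h1]; ring
        · intro z hz hzy
          by_cases hzf : z = f
          · subst hzf
            left
            rw [Rs, Rs, if_pos hu, if_neg fun h => (st_self.1 h) hu]
            have r1 := Rs_ge p F u
            have r2 := Dn_le p F (flip u z)
            linarith
          · have hzF : z ∈ F := (List.mem_cons.1 hz).resolve_left hzf
            rw [Rs, Rs, if_pos hu, if_pos ((st_ne (Ne.symm hzf)).2 hu)]
            rcases h2 z hzF hzy with h4 | ⟨h4, h5, h6⟩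
            · left; linarith
            · right; exact ⟨by rw [h4]; ring, h5, h6⟩) (st_self.2 hxf)
    refine ⟨x', ?_, ?_, ?_⟩
    · rw [List.length_cons, add_comm]
      exact (Wk.one s1).trans w4.1
    · intro i hi
      rcases List.mem_cons.1 hi with h | h
      · rw [h]; exact w4.2
      · exact w2 i h
    · intro i hi
      have hif : i ≠ f := fun h => hi (h ▸ List.mem_cons_self)
      rw [w3 i fun h => hi (List.mem_cons_of_mem f h), flip_ne x hif]

variable {a b c d : Fin n} {L : List (Quad n)} {x : X n}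

lemma G1 (h : x a = p.τ a) :
    G p ((a, b, c, d) :: L) x = G p L x - pen p d x - pen p c x - pen p b x := by
  rw [G, if_pos h]

lemma G2 (ha : ¬ x a = p.τ a) (hb : x b = p.τ b) : G p ((a, b, c, d) :: L) x =
    (G p L x + if Top p (dl L) x then p.B else p.ω a) - pen p d x - pen p c x := by
  rw [G, if_neg ha, if_pos hb]

lemma G3 (ha : ¬ x a = p.τ a) (hb : ¬ x b = p.τ b) (hc : x c = p.τ c) :
    G p ((a, b, c, d) :: L) x = ((NN L + 2 : ℤ) * p.B + Rs p (dl L) x) - pen p d x := by
  rw [G, if_neg ha, if_neg hb, if_pos hc]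

lemma G4 (ha : ¬ x a = p.τ a) (hb : ¬ x b = p.τ b) (hc : ¬ x c = p.τ c) (hd : x d = p.τ d) :
    G p ((a, b, c, d) :: L) x =
      (NN L + 2 : ℤ) * p.B + (Rs p (dl L) x + if Bot p (dl L) x then p.B else p.ω c) := by
  rw [G, if_neg ha, if_neg hb, if_neg hc, if_pos hd]

lemma G5 (ha : ¬ x a = p.τ a) (hb : ¬ x b = p.τ b) (hc : ¬ x c = p.τ c) (hd : ¬ x d = p.τ d) :
    G p ((a, b, c, d) :: L) x = (NN L + 2 + (dl L).length + 2 : ℤ) * p.B + G p L x := by
  rw [G, if_neg ha, if_neg hb, if_neg hc, if_neg hd]

end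

lemma sr_top (p : Par n) (St : X n → Finset (Fin n)) (L : List (Quad n)) (x : X n)
    (h : Top p (dl L) x) : sr p St L x = St x := by
  induction L with
  | nil => rfl
  | cons q L ih =>
    obtain ⟨a, b, c, d⟩ := q
    have hL : Top p (dl L) x := fun i hi => h i (by simp [dl, hi])
    have ha := h a (by simp [dl])
    have hb := h b (by simp [dl])
    have hc := h c (by simp [dl])
    have hd := h d (by simp [dl])
    rw [sr, if_neg ha, if_neg hb, if_neg hc, if_neg hd, ih hL]

set_option maxHeartbeats 4000000 in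
/-- the main walk -/
theorem walkG (p : Par n) (pos : Fin n → ℕ) (L : List (Quad n)) (hL : (dl L).Nodup)
    (hn : (dl L).length ≤ n) (hpos : (dl L).Pairwise fun i j => pos j < pos i) (x : X n)
    (hx : Bot p (dl L) x) :
    ∃ x' : X n, Wk (Stp p pos (dl L) (G p L) (fun St => sr p St L)) (NN L) x x' ∧
      Top p (dl L) x' ∧ ∀ i, i ∉ dl L → x' i = x i := by
  induction L generalizing x with
  | nil => exact ⟨x, rfl, fun i hi => absurd hi List.not_mem_nil, fun _ _ => rfl⟩
  | cons q L ih =>
    obtain ⟨a, b, c, d⟩ := q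
    have hlen : (dl ((a, b, c, d) :: L)).length = (dl L).length + 4 := rfl
    rw [hlen] at hn
    have hQ : dl ((a, b, c, d) :: L) = a :: b :: c :: d :: dl L := rfl
    have hnd : (a :: b :: c :: d :: dl L).Nodup := hL
    obtain ⟨na, hnd⟩ := List.nodup_cons.1 hnd
    obtain ⟨nb, hnd⟩ := List.nodup_cons.1 hnd
    obtain ⟨nc, hnd⟩ := List.nodup_cons.1 hnd
    obtain ⟨nd, hnd⟩ := List.nodup_cons.1 hnd
    have hpos' : (a :: b :: c :: d :: dl L).Pairwise fun i j => pos j < pos i := hpos
    obtain ⟨pa, hpos'⟩ := List.pairwise_cons.1 hpos'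
    obtain ⟨pb, hpos'⟩ := List.pairwise_cons.1 hpos'
    obtain ⟨pc, hpos'⟩ := List.pairwise_cons.1 hpos'
    obtain ⟨pd, hpos'⟩ := List.pairwise_cons.1 hpos'
    have ih := ih hnd (by omega) hpos'
    simp only [List.mem_cons, not_or] at na nb nc
    have hab : a ≠ b := na.1
    have hac : a ≠ c := na.2.1
    have had : a ≠ d := na.2.2.1
    have haL : a ∉ dl L := na.2.2.2
    have hbc : b ≠ c := nb.1
    have hbd : b ≠ d := nb.2.1
    have hbL : b ∉ dl L := nb.2.2
    have hcd : c ≠ d := nc.1
    have hcL : c ∉ dl L := nc.2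
    have hba : b ≠ a := hab.symm
    have hca : c ≠ a := hac.symm
    have hda : d ≠ a := had.symm
    have hcb : c ≠ b := hbc.symm
    have hdb : d ≠ b := hbd.symm
    have hdc : d ≠ c := hcd.symm
    clear na nb nc
    have hdL := nd
    have hC := p.hC
    have hB := B_pos p
    have hBC := p.hB
    have hwa := p.hω0 a
    have hwa' := p.hω a
    have hwc := p.hω0 c
    have hwc' := p.hω c
    have hlC : ((dl L).length : ℤ) * p.C ≤ n * p.C := by
      apply mul_le_mul_of_nonneg_right _ hC.le
      exact_mod_cast (by omega : (dl L).length ≤ n)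
    have hnC : (0 : ℤ) ≤ n * p.C := by positivity
    have hlB : (0 : ℤ) ≤ (dl L).length * p.B := by positivity
    have r1 := Rs_ge p (dl L)
    have r2 := Rs_le p (dl L)
    have g1 := fun x => (G_bounds p L (by omega) x).1
    have g2 := fun x => (G_bounds p L (by omega) x).2
    set Q : List (Quad n) := (a, b, c, d) :: L with hQdef
    set P := Stp p pos (dl Q) (G p Q) (fun St => sr p St Q) with hP
    have mQ : ∀ z, z ∈ dl Q ↔ z = a ∨ z = b ∨ z = c ∨ z = d ∨ z ∈ dl L := by
      intro z; rw [hQ]; simp only [List.mem_cons]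
    have maQ : a ∈ dl Q := (mQ a).2 (Or.inl rfl)
    have mbQ : b ∈ dl Q := (mQ b).2 (Or.inr (Or.inl rfl))
    have mcQ : c ∈ dl Q := (mQ c).2 (Or.inr (Or.inr (Or.inl rfl)))
    have mdQ : d ∈ dl Q := (mQ d).2 (Or.inr (Or.inr (Or.inr (Or.inl rfl))))
    have mLQ : ∀ {z}, z ∈ dl L → z ∈ dl Q := fun hz =>
      (mQ _).2 (Or.inr (Or.inr (Or.inr (Or.inr hz))))
    have neL : ∀ {z e : Fin n}, z ∈ dl L → e ∉ dl L → e ≠ z := fun hz he h => he (h ▸ hz)
    -- the first run
    obtain ⟨x₁, w1, t1, o1⟩ := ih x fun i hi => hx i (mLQ hi)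
    have l1 := w1.lift (P' := P) (fun u => u a = p.τ a ∧ u b = p.τ b ∧ u c = p.τ c ∧ u d = p.τ d)
      (by
        rintro u u' ⟨ua, ub, uc, ud⟩ ⟨y, hy, rfl, h1, h2, h3⟩
        have va : flip u y a = p.τ a := (st_ne (neL hy haL)).2 ua
        have vb : flip u y b = p.τ b := (st_ne (neL hy hbL)).2 ub
        have vc : flip u y c = p.τ c := (st_ne (neL hy hcL)).2 uc
        have vd : flip u y d = p.τ d := (st_ne (neL hy hdL)).2 ud
        have hnt : ¬ Top p (dl L) u := by
          intro h
          have := G_top p L u h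
          have := g2 (flip u y)
          linarith
        have e0 : G p Q u = G p L u := by
          rw [G1 ua, pen_pos ub, pen_pos uc, pen_pos ud]; ring
        refine ⟨⟨y, mLQ hy, rfl, ?_, ?_, ?_⟩, va, vb, vc, vd⟩
        · rw [e0, G1 va, pen_pos vb, pen_pos vc, pen_pos vd, h1]; ring
        · intro z hz hzy
          rcases (mQ z).1 hz with h | h | h | h | hz
          · right
            rw [h]
            refine ⟨?_, ua, pa y (by simp [hy])⟩
            rw [e0, G2 (fun h => st_self.1 h ua) ((st_ne hba).2 ub),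
              if_neg fun h => hnt ((top_flip haL u).1 h), pen_pos ((st_ne hda).2 ud),
              pen_pos ((st_ne hca).2 uc), G_flip L haL]
            ring
          · left
            rw [h, e0, G1 ((st_ne hab).2 ua), pen_pos ((st_ne hdb).2 ud),
              pen_pos ((st_ne hcb).2 uc), pen_neg (fun h => st_self.1 h ub), G_flip L hbL]
            linarith
          · left
            rw [h, e0, G1 ((st_ne hac).2 ua), pen_pos ((st_ne hdc).2 ud),
              pen_neg (fun h => st_self.1 h uc), pen_pos ((st_ne hbc).2 ub), G_flip L hcL]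
            linarith
          · left
            rw [h, e0, G1 ((st_ne had).2 ua), pen_neg (fun h => st_self.1 h ud),
              pen_pos ((st_ne hcd).2 uc), pen_pos ((st_ne hbd).2 ub), G_flip L hdL]
            linarith
          · have e1 : G p Q (flip u z) = G p L (flip u z) := by
              rw [G1 ((st_ne (neL hz haL)).2 ua), pen_pos ((st_ne (neL hz hbL)).2 ub),
                pen_pos ((st_ne (neL hz hcL)).2 uc), pen_pos ((st_ne (neL hz hdL)).2 ud)]
              ring
            rw [e0, e1]
            exact h2 z hz hzy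
        · intro St
          show sr p St ((a, b, c, d) :: L) u = St u
          rw [sr, if_pos ua]
          exact h3 St)
      ⟨hx a maQ, hx b mbQ, hx c mcQ, hx d mdQ⟩
    obtain ⟨m1, ua, ub, uc, ud⟩ := l1
    clear w1
    -- the direction `a`
    have ne1 : ∀ u : X n, ∀ z ∈ dl L, G p L (flip u z) ≠ G p L u := fun u z hz =>
      ((good_G p (fun x : X n => x) L hnd (by omega)).ne u z (List.mem_toFinset.2 hz)).symm
    have neR : ∀ u : X n, ∀ z ∈ dl L, Rs p (dl L) (flip u z) ≠ Rs p (dl L) u := fun u z hz =>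
      ((good_Rs p (fun x : X n => x) (dl L) hnd (by omega)).ne u z (List.mem_toFinset.2 hz)).symm
    have ltT : ∀ u : X n, Top p (dl L) u → ∀ z ∈ dl L, G p L (flip u z) < NN L * p.B := by
      intro u hu z hz
      have h1 := ne1 u z hz
      rw [G_top p L u hu] at h1
      exact lt_of_le_of_ne (g2 _) h1
    have ltB : ∀ u : X n, Bot p (dl L) u → ∀ z ∈ dl L,
        Rs p (dl L) (flip u z) < (dl L).length * p.B := by
      intro u hu z hz
      have h1 := neR u z hz
      rw [Rs_bot p _ u hu] at h1
      exact lt_of_le_of_ne (r2 _) h1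
    have m2 : P x₁ (flip x₁ a) := by
      have e0 : G p Q x₁ = NN L * p.B := by
        rw [G1 ua, pen_pos ub, pen_pos uc, pen_pos ud, G_top p L x₁ t1]; ring
      refine ⟨a, maQ, rfl, ?_, ?_, ?_⟩
      · rw [e0, G2 (fun h => st_self.1 h ua) ((st_ne hba).2 ub), if_pos ((top_flip haL x₁).2 t1),
          pen_pos ((st_ne hda).2 ud), pen_pos ((st_ne hca).2 uc), G_flip L haL, G_top p L x₁ t1]
        ring
      · intro z hz hzy
        left
        rcases (mQ z).1 hz with h | h | h | h | hz
        · exact absurd h hzy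
        · rw [h, e0, G1 ((st_ne hab).2 ua), pen_pos ((st_ne hdb).2 ud),
            pen_pos ((st_ne hcb).2 uc), pen_neg (fun h => st_self.1 h ub), G_flip L hbL,
            G_top p L x₁ t1]
          linarith
        · rw [h, e0, G1 ((st_ne hac).2 ua), pen_pos ((st_ne hdc).2 ud),
            pen_neg (fun h => st_self.1 h uc), pen_pos ((st_ne hbc).2 ub), G_flip L hcL,
            G_top p L x₁ t1]
          linarith
        · rw [h, e0, G1 ((st_ne had).2 ua), pen_neg (fun h => st_self.1 h ud),
            pen_pos ((st_ne hcd).2 uc), pen_pos ((st_ne hbd).2 ub), G_flip L hdL,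
            G_top p L x₁ t1]
          linarith
        · rw [e0, G1 ((st_ne (neL hz haL)).2 ua), pen_pos ((st_ne (neL hz hbL)).2 ub),
              pen_pos ((st_ne (neL hz hcL)).2 uc), pen_pos ((st_ne (neL hz hdL)).2 ud)]
          have := ltT x₁ t1 z hz
          linarith
      · intro St
        show sr p St ((a, b, c, d) :: L) x₁ = St x₁
        rw [sr, if_pos ua, sr_top p St L x₁ t1]
    -- the direction `b`
    set x₂ := flip x₁ a with hx2
    have a2 : ¬ x₂ a = p.τ a := fun h => st_self.1 h ua
    have b2 : x₂ b = p.τ b := (st_ne hba).2 ub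
    have c2 : x₂ c = p.τ c := (st_ne hca).2 uc
    have d2 : x₂ d = p.τ d := (st_ne hda).2 ud
    have t2 : Top p (dl L) x₂ := (top_flip haL x₁).2 t1
    have m3 : P x₂ (flip x₂ b) := by
      have e0 : G p Q x₂ = NN L * p.B + p.B := by
        rw [G2 a2 b2, pen_pos c2, pen_pos d2, if_pos t2, G_top p L x₂ t2]; ring
      refine ⟨b, mbQ, rfl, ?_, ?_, ?_⟩
      · rw [e0, G3 (fun h => a2 ((st_ne hab).1 h)) (fun h => st_self.1 h b2) ((st_ne hcb).2 c2),
          pen_pos ((st_ne hdb).2 d2), Rs_flip _ hbL, Rs_top p _ x₂ t2]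
        ring
      · intro z hz hzy
        left
        rcases (mQ z).1 hz with h | h | h | h | hz
        · rw [h, e0, G1 (st_self.2 a2), pen_pos ((st_ne hda).2 d2), pen_pos ((st_ne hca).2 c2),
            pen_pos ((st_ne hba).2 b2), G_flip L haL, G_top p L x₂ t2]
          linarith
        · exact absurd h hzy
        · rw [h, e0, G2 (fun h => a2 ((st_ne hac).1 h)) ((st_ne hbc).2 b2),
            if_pos ((top_flip hcL x₂).2 t2), pen_pos ((st_ne hdc).2 d2),
            pen_neg (fun h => st_self.1 h c2), G_flip L hcL, G_top p L x₂ t2]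
          linarith
        · rw [h, e0, G2 (fun h => a2 ((st_ne had).1 h)) ((st_ne hbd).2 b2),
            if_pos ((top_flip hdL x₂).2 t2), pen_neg (fun h => st_self.1 h d2),
            pen_pos ((st_ne hcd).2 c2), G_flip L hdL, G_top p L x₂ t2]
          linarith
        · have hnt : ¬ Top p (dl L) (flip x₂ z) := fun h => h z hz (st_self.2 (t2 z hz))
          rw [e0, G2 (fun h => a2 ((st_ne (neL hz haL)).1 h)) ((st_ne (neL hz hbL)).2 b2),
            if_neg hnt, pen_pos ((st_ne (neL hz hcL)).2 c2), pen_pos ((st_ne (neL hz hdL)).2 d2)]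
          have := ltT x₂ t2 z hz
          linarith
      · intro St
        show sr p St ((a, b, c, d) :: L) x₂ = St x₂
        rw [sr, if_neg a2, if_pos b2, if_pos t2]
    -- resetting
    set x₃ := flip x₂ b with hx3
    have a3 : ¬ x₃ a = p.τ a := fun h => a2 ((st_ne hab).1 h)
    have b3 : ¬ x₃ b = p.τ b := fun h => st_self.1 h b2
    have c3 : x₃ c = p.τ c := (st_ne hcb).2 c2
    have d3 : x₃ d = p.τ d := (st_ne hdb).2 d2
    have t3 : Top p (dl L) x₃ := (top_flip hbL x₂).2 t2
    obtain ⟨x₄, w4, t4, o4⟩ := walkR (p := p) pos (dl L) hnd (by omega) x₃ t3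
    have l4 := w4.lift (P' := P)
      (fun u => ¬ u a = p.τ a ∧ ¬ u b = p.τ b ∧ u c = p.τ c ∧ u d = p.τ d)
      (by
        rintro u u' ⟨ua, ub, uc, ud⟩ ⟨y, hy, rfl, h1, h2, h3⟩
        have va : ¬ flip u y a = p.τ a := fun h => ua ((st_ne (neL hy haL)).1 h)
        have vb : ¬ flip u y b = p.τ b := fun h => ub ((st_ne (neL hy hbL)).1 h)
        have vc : flip u y c = p.τ c := (st_ne (neL hy hcL)).2 uc
        have vd : flip u y d = p.τ d := (st_ne (neL hy hdL)).2 ud
        have hnt : ¬ Bot p (dl L) u := by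
          intro h
          have := Rs_bot p _ u h
          have := r2 (flip u y)
          linarith
        have e0 : G p Q u = (NN L + 2 : ℤ) * p.B + Rs p (dl L) u := by
          rw [G3 ua ub uc, pen_pos ud]; ring
        have hr := r1 u
        refine ⟨⟨y, mLQ hy, rfl, ?_, ?_, ?_⟩, va, vb, vc, vd⟩
        · rw [e0, G3 va vb vc, pen_pos vd, h1]; ring
        · intro z hz hzy
          rcases (mQ z).1 hz with h | h | h | h | hz
          · left
            rw [h, e0, G1 (st_self.2 ua), G_flip L haL]
            have := g2 u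
            have := pen_ge p d (flip u a)
            have := pen_ge p c (flip u a)
            have := pen_ge p b (flip u a)
            linarith
          · left
            rw [h, e0, G2 (fun h => ua ((st_ne hab).1 h)) (st_self.2 ub), G_flip L hbL]
            have := g2 u
            have := pen_ge p d (flip u b)
            have := pen_ge p c (flip u b)
            split_ifs <;> linarith
          · right
            rw [h]
            refine ⟨?_, uc, pc y (by simp [hy])⟩
            rw [e0, G4 (fun h => ua ((st_ne hac).1 h)) (fun h => ub ((st_ne hbc).1 h))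
              (fun h => st_self.1 h uc) ((st_ne hdc).2 ud),
              if_neg fun h => hnt ((bot_flip hcL u).1 h), Rs_flip _ hcL]
            ring
          · left
            rw [h, e0, G3 (fun h => ua ((st_ne had).1 h)) (fun h => ub ((st_ne hbd).1 h))
              ((st_ne hcd).2 uc), pen_neg (fun h => st_self.1 h ud), Rs_flip _ hdL]
            linarith
          · have e1 : G p Q (flip u z) = (NN L + 2 : ℤ) * p.B + Rs p (dl L) (flip u z) := by
              rw [G3 (fun h => ua ((st_ne (neL hz haL)).1 h))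
                (fun h => ub ((st_ne (neL hz hbL)).1 h)) ((st_ne (neL hz hcL)).2 uc),
                pen_pos ((st_ne (neL hz hdL)).2 ud)]
              ring
            rw [e0, e1]
            rcases h2 z hz hzy with h4 | ⟨h4, h5, h6⟩
            · left; linarith
            · right; exact ⟨by rw [h4]; ring, h5, h6⟩
        · intro St
          show sr p St ((a, b, c, d) :: L) u = St u
          rw [sr, if_neg ua, if_neg ub, if_pos uc])
      ⟨a3, b3, c3, d3⟩
    obtain ⟨m4, a4, b4, c4, d4⟩ := l4
    clear w4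
    -- the direction `c`
    have m5 : P x₄ (flip x₄ c) := by
      have e0 : G p Q x₄ = (NN L + 2 : ℤ) * p.B + (dl L).length * p.B := by
        rw [G3 a4 b4 c4, pen_pos d4, Rs_bot p _ x₄ t4]; ring
      refine ⟨c, mcQ, rfl, ?_, ?_, ?_⟩
      · rw [e0, G4 (fun h => a4 ((st_ne hac).1 h)) (fun h => b4 ((st_ne hbc).1 h))
          (fun h => st_self.1 h c4) ((st_ne hdc).2 d4), if_pos ((bot_flip hcL x₄).2 t4),
          Rs_flip _ hcL, Rs_bot p _ x₄ t4]
        ring
      · intro z hz hzy
        left
        rcases (mQ z).1 hz with h | h | h | h | hz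
        · rw [h, e0, G1 (st_self.2 a4), G_flip L haL]
          have := g2 x₄
          have := pen_ge p d (flip x₄ a)
          have := pen_ge p c (flip x₄ a)
          have := pen_ge p b (flip x₄ a)
          linarith
        · rw [h, e0, G2 (fun h => a4 ((st_ne hab).1 h)) (st_self.2 b4), G_flip L hbL]
          have := g2 x₄
          have := pen_ge p d (flip x₄ b)
          have := pen_ge p c (flip x₄ b)
          split_ifs <;> linarith
        · exact absurd h hzy
        · rw [h, e0, G3 (fun h => a4 ((st_ne had).1 h)) (fun h => b4 ((st_ne hbd).1 h))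
            ((st_ne hcd).2 c4), pen_neg (fun h => st_self.1 h d4), Rs_flip _ hdL,
            Rs_bot p _ x₄ t4]
          linarith
        · rw [e0, G3 (fun h => a4 ((st_ne (neL hz haL)).1 h))
            (fun h => b4 ((st_ne (neL hz hbL)).1 h)) ((st_ne (neL hz hcL)).2 c4),
            pen_pos ((st_ne (neL hz hdL)).2 d4)]
          have := ltB x₄ t4 z hz
          linarith
      · intro St
        show sr p St ((a, b, c, d) :: L) x₄ = St x₄
        rw [sr, if_neg a4, if_neg b4, if_pos c4]
    -- the direction `d`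
    set x₅ := flip x₄ c with hx5
    have a5 : ¬ x₅ a = p.τ a := fun h => a4 ((st_ne hac).1 h)
    have b5 : ¬ x₅ b = p.τ b := fun h => b4 ((st_ne hbc).1 h)
    have c5 : ¬ x₅ c = p.τ c := fun h => st_self.1 h c4
    have d5 : x₅ d = p.τ d := (st_ne hdc).2 d4
    have t5 : Bot p (dl L) x₅ := (bot_flip hcL x₄).2 t4
    have m6 : P x₅ (flip x₅ d) := by
      have e0 : G p Q x₅ = (NN L + 2 : ℤ) * p.B + (dl L).length * p.B + p.B := by
        rw [G4 a5 b5 c5 d5, if_pos t5, Rs_bot p _ x₅ t5]; ring
      refine ⟨d, mdQ, rfl, ?_, ?_, ?_⟩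
      · rw [e0, G5 (fun h => a5 ((st_ne had).1 h)) (fun h => b5 ((st_ne hbd).1 h))
          (fun h => c5 ((st_ne hcd).1 h)) (fun h => st_self.1 h d5), G_flip L hdL,
          G_bot p L x₅ t5]
        ring
      · intro z hz hzy
        left
        rcases (mQ z).1 hz with h | h | h | h | hz
        · rw [h, e0, G1 (st_self.2 a5), G_flip L haL]
          have := g2 x₅
          have := pen_ge p d (flip x₅ a)
          have := pen_ge p c (flip x₅ a)
          have := pen_ge p b (flip x₅ a)
          linarith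
        · rw [h, e0, G2 (fun h => a5 ((st_ne hab).1 h)) (st_self.2 b5), G_flip L hbL]
          have := g2 x₅
          have := pen_ge p d (flip x₅ b)
          have := pen_ge p c (flip x₅ b)
          split_ifs <;> linarith
        · rw [h, e0, G3 (fun h => a5 ((st_ne hac).1 h)) (fun h => b5 ((st_ne hbc).1 h))
            (st_self.2 c5), Rs_flip _ hcL, Rs_bot p _ x₅ t5]
          have := pen_ge p d (flip x₅ c)
          linarith
        · exact absurd h hzy
        · have hnt : ¬ Bot p (dl L) (flip x₅ z) := fun h => st_self.1 (h z hz) (t5 z hz)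
          rw [e0, G4 (fun h => a5 ((st_ne (neL hz haL)).1 h))
            (fun h => b5 ((st_ne (neL hz hbL)).1 h)) (fun h => c5 ((st_ne (neL hz hcL)).1 h))
            ((st_ne (neL hz hdL)).2 d5), if_neg hnt]
          have := ltB x₅ t5 z hz
          linarith
      · intro St
        show sr p St ((a, b, c, d) :: L) x₅ = St x₅
        rw [sr, if_neg a5, if_neg b5, if_neg c5, if_pos d5, if_pos t5]
    -- the second run
    set x₆ := flip x₅ d with hx6
    have a6 : ¬ x₆ a = p.τ a := fun h => a5 ((st_ne had).1 h)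
    have b6 : ¬ x₆ b = p.τ b := fun h => b5 ((st_ne hbd).1 h)
    have c6 : ¬ x₆ c = p.τ c := fun h => c5 ((st_ne hcd).1 h)
    have d6 : ¬ x₆ d = p.τ d := fun h => st_self.1 h d5
    have t6 : Bot p (dl L) x₆ := (bot_flip hdL x₅).2 t5
    obtain ⟨x₇, w7, t7, o7⟩ := ih x₆ t6
    have l7 := w7.lift (P' := P)
      (fun u => ¬ u a = p.τ a ∧ ¬ u b = p.τ b ∧ ¬ u c = p.τ c ∧ ¬ u d = p.τ d)
      (by
        rintro u u' ⟨ua, ub, uc, ud⟩ ⟨y, hy, rfl, h1, h2, h3⟩
        have va : ¬ flip u y a = p.τ a := fun h => ua ((st_ne (neL hy haL)).1 h)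
        have vb : ¬ flip u y b = p.τ b := fun h => ub ((st_ne (neL hy hbL)).1 h)
        have vc : ¬ flip u y c = p.τ c := fun h => uc ((st_ne (neL hy hcL)).1 h)
        have vd : ¬ flip u y d = p.τ d := fun h => ud ((st_ne (neL hy hdL)).1 h)
        have e0 : G p Q u = (NN L + 2 + (dl L).length + 2 : ℤ) * p.B + G p L u :=
          G5 ua ub uc ud
        have hg := g1 u
        refine ⟨⟨y, mLQ hy, rfl, ?_, ?_, ?_⟩, va, vb, vc, vd⟩
        · rw [e0, G5 va vb vc vd, h1]; ring
        · intro z hz hzy
          rcases (mQ z).1 hz with h | h | h | h | hz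
          · left
            rw [h, e0, G1 (st_self.2 ua), G_flip L haL]
            have := g2 u
            have := pen_ge p d (flip u a)
            have := pen_ge p c (flip u a)
            have := pen_ge p b (flip u a)
            linarith
          · left
            rw [h, e0, G2 (fun h => ua ((st_ne hab).1 h)) (st_self.2 ub), G_flip L hbL]
            have := g2 u
            have := pen_ge p d (flip u b)
            have := pen_ge p c (flip u b)
            split_ifs <;> linarith
          · left
            rw [h, e0, G3 (fun h => ua ((st_ne hac).1 h)) (fun h => ub ((st_ne hbc).1 h))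
              (st_self.2 uc), Rs_flip _ hcL]
            have := r2 u
            have := pen_ge p d (flip u c)
            linarith
          · left
            rw [h, e0, G4 (fun h => ua ((st_ne had).1 h)) (fun h => ub ((st_ne hbd).1 h))
              (fun h => uc ((st_ne hcd).1 h)) (st_self.2 ud), Rs_flip _ hdL]
            have := r2 u
            split_ifs <;> linarith
          · have e1 : G p Q (flip u z) = (NN L + 2 + (dl L).length + 2 : ℤ) * p.B +
                G p L (flip u z) :=
              G5 (fun h => ua ((st_ne (neL hz haL)).1 h)) (fun h => ub ((st_ne (neL hz hbL)).1 h))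
                (fun h => uc ((st_ne (neL hz hcL)).1 h)) (fun h => ud ((st_ne (neL hz hdL)).1 h))
            rw [e0, e1]
            rcases h2 z hz hzy with h4 | ⟨h4, h5, h6⟩
            · left; linarith
            · right; exact ⟨by rw [h4]; ring, h5, h6⟩
        · intro St
          show sr p St ((a, b, c, d) :: L) u = St u
          rw [sr, if_neg ua, if_neg ub, if_neg uc, if_neg ud]
          exact h3 St)
      ⟨a6, b6, c6, d6⟩
    obtain ⟨m7, a7, b7, c7, d7⟩ := l7
    refine ⟨x₇, ?_, ?_, ?_⟩
    · have e : NN Q = NN L + 1 + 1 + (dl L).length + 1 + 1 + NN L := by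
        rw [hQdef, NN]; ring
      rw [e]
      exact (((((m1.trans (Wk.one m2)).trans (Wk.one m3)).trans m4).trans (Wk.one m5)).trans
        (Wk.one m6)).trans m7
    · intro i hi
      rcases (mQ i).1 hi with h | h | h | h | h
      · rw [h]; exact a7
      · rw [h]; exact b7
      · rw [h]; exact c7
      · rw [h]; exact d7
      · exact t7 i h
    · intro i hi
      have hia : i ≠ a := fun h => hi (h ▸ maQ)
      have hib : i ≠ b := fun h => hi (h ▸ mbQ)
      have hic : i ≠ c := fun h => hi (h ▸ mcQ)
      have hid : i ≠ d := fun h => hi (h ▸ mdQ)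
      have hiL : i ∉ dl L := fun h => hi (mLQ h)
      rw [o7 i hiL, hx6, flip_ne _ hid, hx5, flip_ne _ hic, o4 i hiL, hx3, flip_ne _ hib, hx2,
        flip_ne _ hia, o1 i hiL]

end Pool.Agent.TH745.MR
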